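import Pool.Agent.W558.WD.Defs

set_option autoImplicit false
set_option linter.unusedVariables false
set_option linter.unusedSectionVars false

universe u

open Polynomial AlgebraicGeometry CategoryTheory Pool.Agent.H920R2 TensorProduct

namespace Pool.Agent.W558

/-! ## Global part -/

/-- NORM: smooth domains over fields are integrally closed. -/
def WD_norm : Prop := ∀ (k A : Type u) [Field k] [CommRing A] [IsDomain A] [Algebra k A]
  [Algebra.Smooth k A], IsIntegrallyClosed A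

/-- All charts have the fraction field `K`. -/
def Frc {k K : Type u} [Field k] [Field K] [Algebra k K] {R0 R : Subalgebra k K} {T I : Type}
    (M : LM R0 R T I) : Prop := ∀ t (x : K), ∃ a ∈ M.A t, ∃ b ∈ M.A t, b ≠ 0 ∧ x = a * b⁻¹

/-- OVP: principalization by a logarithmic modification. -/
def WD_ovp : Prop := ∀ (k K : Type u) [Field k] [Field K] [Algebra k K] (R0 R : Subalgebra k K)
  (T I G : Type) [Finite T] [Fintype I] [Finite G] (M : LM R0 R T I) (Γ : G → I → ℤ),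
  ∃ (T' I' : Type) (_ : Finite T') (_ : Fintype I') (M' : LM R0 R T' I') (π : T' → T)
    (Θ : I' → I → ℤ), Ov M M' π Θ ∧ ∀ a b, Cmp M' (fun a i' => ∑ i, Θ i' i * Γ a i) a b

/-- SUM: normal form of a sum. -/
def WD_sum : Prop := ∀ (p : ℕ) [Fact p.Prime] (k K : Type u) [Field k] [Field K] [Algebra k K]
  [CharP K p] (R0 R : Subalgebra k K) (T I ι : Type) [Finite T] [Fintype I] [Fintype ι]
  [Nonempty ι] (M : LM R0 R T I) (f : ι → K) (n : ι → I → ℤ) (a h : T → ι → K),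
  NFJ p M f n a h →
  ∃ (T' I' : Type) (_ : Finite T') (_ : Fintype I') (M' : LM R0 R T' I') (π : T' → T)
    (Θ : I' → I → ℤ) (n' : I' → ℤ) (a' h' : T' → K),
    Ov M M' π Θ ∧ NFH p M' (∑ j, f j) n' a' h'

/-- PROD: the product of two models. -/
def WD_prod : Prop := ∀ (p : ℕ) (k E1 E2 L : Type u) [Field k] [Field E1] [Field E2] [Field L]
  [Algebra k E1] [Algebra k E2] [Algebra k L] [Algebra E1 L] [Algebra E2 L]
  [IsScalarTower k E1 L] [IsScalarTower k E2 L],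
  Function.Injective (Algebra.TensorProduct.productMap (IsScalarTower.toAlgHom k E1 L)
    (IsScalarTower.toAlgHom k E2 L)) →
  (∀ x : L, ∃ a b : E1 ⊗[k] E2, b ≠ 0 ∧
    x * Algebra.TensorProduct.productMap (IsScalarTower.toAlgHom k E1 L)
      (IsScalarTower.toAlgHom k E2 L) b =
      Algebra.TensorProduct.productMap (IsScalarTower.toAlgHom k E1 L)
      (IsScalarTower.toAlgHom k E2 L) a) →
  ∀ (T1 I1 T2 I2 ι1 ι2 G1 G2 : Type) [Finite T1] [Finite T2] [Fintype I1] [Fintype I2]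
    (M1 : LM (⊥ : Subalgebra k E1) ⊤ T1 I1) (M2 : LM (⊥ : Subalgebra k E2) ⊤ T2 I2)
    (f1 : ι1 → E1) (n1 : ι1 → I1 → ℤ) (a1 h1 : T1 → ι1 → E1)
    (f2 : ι2 → E2) (n2 : ι2 → I2 → ℤ) (a2 h2 : T2 → ι2 → E2)
    (g1 : G1 → E1) (Γ1 : G1 → I1 → ℤ) (g2 : G2 → E2) (Γ2 : G2 → I2 → ℤ),
    NFJ p M1 f1 n1 a1 h1 → NFJ p M2 f2 n2 a2 h2 → Fn M1 g1 Γ1 → Fn M2 g2 Γ2 →
    Frc M1 → Frc M2 →
    ∃ (T I : Type) (_ : Finite T) (_ : Fintype I) (M : LM (⊥ : Subalgebra k L) ⊤ T I)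
      (n : ι1 ⊕ ι2 → I → ℤ) (a h : T → ι1 ⊕ ι2 → L) (Γ : G1 ⊕ G2 → I → ℤ),
      NFJ p M (Sum.elim (fun j => algebraMap E1 L (f1 j)) fun j => algebraMap E2 L (f2 j)) n a h ∧
      Fn M (Sum.elim (fun j => algebraMap E1 L (g1 j)) fun j => algebraMap E2 L (g2 j)) Γ ∧
      Frc M

/-- The local ring of the divisor `Z ^ p = f` in the line with coordinate `Z` over `L`. -/
def IsQ (p : ℕ) {k L N : Type u} [Field k] [Field L] [Field N] [Algebra k L] [Algebra k N]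
    [Algebra L N] (Z : N) (f : L) (Q : Subalgebra k N) : Prop :=
  ∀ x : N, x ∈ Q ↔ ∃ P P' : L[X], ¬ ((X ^ p - C f : L[X]) ∣ P') ∧ x * aeval Z P' = aeval Z P

/-- All elements of `Q` are fractions of elements of the charts. -/
def Lq {k N : Type u} [Field k] [Field N] [Algebra k N] {T I : Type}
    (M : LM (⊥ : Subalgebra k N) ⊤ T I) (Q : Subalgebra k N) : Prop :=
  ∀ t, ∀ q ∈ Q, ∃ α ∈ M.A t, ∃ β ∈ M.A t, β ≠ 0 ∧ β⁻¹ ∈ Q ∧ q * β = α

/-- BUN: the projective line bundle with the local coordinates `(Z - a t) / x ^ m`. -/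
def WD_bun : Prop := ∀ (p : ℕ) [Fact p.Prime] (k L N : Type u) [Field k] [CharP k p] [Field L]
  [Field N] [Algebra k L] [Algebra k N] [Algebra L N] [IsScalarTower k L N] (T I G : Type)
  [Finite T] [Fintype I] (M : LM (⊥ : Subalgebra k L) ⊤ T I) (f : L) (n : I → ℤ) (a h : T → L)
  (g : G → L) (Γ : G → I → ℤ),
  NFH p M f n a h → Frc M → Fn M g Γ → (∀ b : L, b ^ p ≠ f) →
  ∀ Z : N, Transcendental L Z → (∀ x : N, ∃ P P' : L[X], P' ≠ 0 ∧ x * aeval Z P' = aeval Z P) →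
  ∀ Q : Subalgebra k N, IsQ p Z f Q →
  ∃ (T' I' : Type) (_ : Finite T') (_ : Fintype I') (M' : LM (⊥ : Subalgebra k N) ⊤ T' I')
    (y h' : T' → N) (c μ : I' → ℤ) (Γ' : G → I' → ℤ),
    PS p M' (Z ^ p - algebraMap L N f) Q y h' c μ ∧ Lq M' Q ∧
    Fn M' (fun b => algebraMap L N (g b)) Γ'

/-- CP: the divisors `y t = 0` on the different charts agree on the component `i` of the boundary
if `c i` is positive. -/
def WD_cp : Prop := ∀ (p : ℕ) [Fact p.Prime] (k N : Type u) [Field k] [PerfectField k] [CharP k p]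
  [Field N] [Algebra k N] (T I : Type) [Fintype I] (M : LM (⊥ : Subalgebra k N) ⊤ T I) (F : N)
  (Q : Subalgebra k N) (y h : T → N) (c μ : I → ℤ), PS p M F Q y h c μ →
  ∀ i, 0 < c i → ∀ t t', ∃ n : ℕ, ∃ α ∈ M.A t, ∃ β ∈ M.A t,
    (M.H t' / M.H t) ^ n * y t' = α * y t + β * M.x t i

/-- PBL: the blowup of the intersection of the component `i` of the boundary and of the divisors
`y t = 0`. -/
def WD_pbl : Prop := ∀ (p : ℕ) [Fact p.Prime] (k N : Type u) [Field k] [CharP k p] [Field N]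
  [Algebra k N] (T I G : Type) [Finite T] [Fintype I] [DecidableEq I]
  (M : LM (⊥ : Subalgebra k N) ⊤ T I) (F : N) (Q : Subalgebra k N) (y h : T → N) (c μ : I → ℤ)
  (g : G → N) (Γ : G → I → ℤ), PS p M F Q y h c μ → Lq M Q → Fn M g Γ → ∀ i, 0 < c i →
  (∀ t t', ∃ n : ℕ, ∃ α ∈ M.A t, ∃ β ∈ M.A t,
    (M.H t' / M.H t) ^ n * y t' = α * y t + β * M.x t i) →
  ∃ (M' : LM (⊥ : Subalgebra k N) ⊤ (T × Bool) (Option I)) (y' h' : T × Bool → N)
    (μ' : Option I → ℤ) (Γ' : G → Option I → ℤ),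
    PS p M' F Q y' h' (fun o => o.elim (c i - p) c) μ' ∧ Lq M' Q ∧ Fn M' g Γ' ∧
    SepY M' y' (some i) ∧ (∀ l l', Sep M l l' → Sep M' (some l) (some l')) ∧
    (∀ l, SepY M y l → SepY M' y' (some l)) ∧ (∀ l, Sep M i l → Sep M' none (some l)) ∧
    (∀ l, SepY M y l → Sep M' none (some l))

/-- TBL: the blowup of the intersection of two components of the boundary. -/
def WD_tbl : Prop := ∀ (p : ℕ) [Fact p.Prime] (k N : Type u) [Field k] [CharP k p] [Field N]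
  [Algebra k N] (T I G : Type) [Finite T] [Fintype I] [DecidableEq I]
  (M : LM (⊥ : Subalgebra k N) ⊤ T I) (F : N) (Q : Subalgebra k N) (y h : T → N) (c μ : I → ℤ)
  (g : G → N) (Γ : G → I → ℤ), PS p M F Q y h c μ → Lq M Q → Fn M g Γ → ∀ i j, i ≠ j →
  ∃ (M' : LM (⊥ : Subalgebra k N) ⊤ (T × Bool) (Option I)) (y' h' : T × Bool → N)
    (μ' : Option I → ℤ) (Γ' : G → Option I → ℤ),
    PS p M' F Q y' h' (fun o => o.elim (c i + c j) c) μ' ∧ Lq M' Q ∧ Fn M' g Γ' ∧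
    Sep M' (some i) (some j) ∧ (∀ l l', Sep M l l' → Sep M' (some l) (some l')) ∧
    (∀ l, Sep M i l → Sep M' none (some l)) ∧ (∀ l, Sep M j l → Sep M' none (some l)) ∧
    (∀ l, SepY M y l → SepY M' y' (some l)) ∧ (SepY M y i → SepY M' y' none)

/-- The final form: on each chart `F` is, up to a monomial, `x ^ (-c) * y ^ p - h` or
`1 - x ^ c * y ^ (-p) * h`. -/
def Fin2 {k N : Type u} [Field k] [Field N] [Algebra k N] {T I : Type}
    (M : LM (⊥ : Subalgebra k N) ⊤ T I) (y : T → N) (c : I → ℤ) : Prop :=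
  ∀ t, (∀ i, c i ≤ 0 ∨ (M.x t i)⁻¹ ∈ M.A t) ∨
    ((∀ i, 0 ≤ c i ∨ (M.x t i)⁻¹ ∈ M.A t) ∧ (y t)⁻¹ ∈ M.A t)

/-- PPR: principalization. -/
def WD_ppr : Prop := ∀ (p : ℕ) [Fact p.Prime] (k N : Type u) [Field k] [PerfectField k]
  [CharP k p] [Field N] [Algebra k N] (T I G : Type) [Finite T] [Fintype I]
  (M : LM (⊥ : Subalgebra k N) ⊤ T I) (F : N) (Q : Subalgebra k N) (y h : T → N) (c μ : I → ℤ)
  (g : G → N) (Γ : G → I → ℤ), PS p M F Q y h c μ → Lq M Q → Fn M g Γ →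
  ∃ (T' I' : Type) (_ : Finite T') (_ : Fintype I') (M' : LM (⊥ : Subalgebra k N) ⊤ T' I')
    (y' h' : T' → N) (c' μ' : I' → ℤ) (Γ' : G → I' → ℤ),
    PS p M' F Q y' h' c' μ' ∧ Lq M' Q ∧ Fn M' g Γ' ∧ Fin2 M' y' c'

/-- PCUT: restriction to the divisor of `F`. -/
def WD_pcut : Prop := ∀ (p : ℕ) [Fact p.Prime] (k N K : Type u) [Field k] [PerfectField k]
  [CharP k p] [Field N] [Algebra k N] [Field K] [Algebra k K] (T I G : Type) [Finite T] [Fintype I]
  (M : LM (⊥ : Subalgebra k N) ⊤ T I) (F : N) (Q : Subalgebra k N) (y h : T → N) (c μ : I → ℤ)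
  (g : G → N) (Γ : G → I → ℤ), PS p M F Q y h c μ → Lq M Q → Fn M g Γ → Fin2 M y c →
  F ∈ Q → F ≠ 0 → ∀ π : Q →ₐ[k] K, (∀ q : Q, π q = 0 ↔ ∃ r ∈ Q, (q : N) = F * r) →
  Function.Surjective π → (∀ x : N, x ∈ Q ∨ x⁻¹ ∈ Q) →
  ∀ g' : G → K, (∀ b (hb : g b ∈ Q), g' b = π ⟨g b, hb⟩) →
  ∃ (T' I' : Type) (_ : Finite T') (_ : Fintype I') (M' : LM (⊥ : Subalgebra k K) ⊤ T' I')
    (Γ' : G → I' → ℤ), Fn M' g' Γ' ∧ Frc M'

/-- RES: restriction of a model to an affine variety `Spec R`, which is integral over the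
subalgebra generated by functions which are locally monomials. -/
def WD_res : Prop := ∀ (k K : Type u) [Field k] [Field K] [Algebra k K] (T I G : Type)
  [Finite T] [Fintype I] [Finite G] (M : LM (⊥ : Subalgebra k K) ⊤ T I) (g : G → K)
  (Γ : G → I → ℤ), Fn M g Γ → Frc M → ∀ R : Subalgebra k K, R.FG → (∀ b, g b ∈ R) →
  (∀ x ∈ R, IsIntegral (Algebra.adjoin k (Set.range g)) x) →
  (∀ x : K, ∃ a ∈ R, ∃ b ∈ R, b ≠ 0 ∧ x = a * b⁻¹) →
  ∃ (T' I' : Type) (_ : Finite T') (_ : Fintype I') (M' : LM R R T' I'), True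

/-! ## Surfaces: points, boundary and logarithmic derivations -/

/-- The unit multiples of `x`. -/
def uo {k E : Type u} [Field k] [Field E] [Algebra k E] (O : Subalgebra k E) (x : E) : Set E :=
  {z | ∃ w ∈ O, w ≠ 0 ∧ w⁻¹ ∈ O ∧ z = w * x}

/-- `O` is the local ring of a closed point of a smooth surface. -/
def Pt2 {k E : Type u} [Field k] [Field E] [Algebra k E] (O : Subalgebra k E) : Prop :=
  ∃ A : Subalgebra k E, Sf A ∧ IsPt A O

/-- The local equations of the components of the boundary through the point `O`. -/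
def bdy {k E : Type u} [Field k] [Field E] [Algebra k E] {T I : Type}
    (M : LM (⊥ : Subalgebra k E) ⊤ T I) (O : Subalgebra k E) : Set E :=
  {z | ∃ t i, M.A t ≤ O ∧ NU O (M.x t i) ∧ z ∈ uo O (M.x t i)}

/-- The local equations of the components of the boundary through the point `O'` of the blowup of
the point `O`. -/
def btr {k E : Type u} [Field k] [Field E] [Algebra k E] (O : Subalgebra k E) (b : Set E) (e : E)
    (O' : Subalgebra k E) : Set E :=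
  {z | z ∈ uo O' e ∨ ∃ w ∈ b, NU O' (w / e) ∧ z ∈ uo O' (w / e)}

/-- The logarithmic derivations at the point `O` with boundary `b`. -/
def Th {k E : Type u} [Field k] [Field E] [Algebra k E] (O : Subalgebra k E) (b : Set E) :
    Set (Derivation k E E) :=
  {D | (∀ a ∈ O, D a ∈ O) ∧ ∀ z ∈ b, ∃ w ∈ O, D z = w * z}

/-- The fractional ideal generated by the `θ f`, `θ` logarithmic derivation, is principal. -/
def Gd {k E : Type u} [Field k] [Field E] [Algebra k E] (O : Subalgebra k E) (b : Set E)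
    (f : E) : Prop := ∃ θ ∈ Th O b, θ f ≠ 0 ∧ ∀ θ' ∈ Th O b, θ' f / θ f ∈ O

/-- The fractional ideal generated by the `θ f` has no zeros in codimension one outside of the
boundary. -/
def FC {k E : Type u} [Field k] [Field E] [Algebra k E] (O : Subalgebra k E) (b : Set E)
    (f : E) : Prop := ∀ 𝔮 : Ideal O, 𝔮.IsPrime → (∃ z : O, NU O (z : E) ∧ z ∉ 𝔮) →
    (∀ z : O, (z : E) ∈ b → z ∉ 𝔮) →
    ∃ θ ∈ Th O b, ∀ c : O, c ∉ 𝔮 → ∀ h : (c : E) * θ f ∈ O, (⟨c * θ f, h⟩ : O) ∉ 𝔮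

/-- The boundary has simple normal crossings at `O`. -/
def Ty {k E : Type u} [Field k] [Field E] [Algebra k E] (O : Subalgebra k E) (b : Set E) : Prop :=
  ∃ x y, Par O x y ∧ (b = ∅ ∨ b = uo O x ∨ b = uo O x ∪ uo O y)

/-- The function `f` has no poles outside of the boundary. -/
def Po {k E : Type u} [Field k] [Field E] [Algebra k E] (O : Subalgebra k E) (b : Set E)
    (f : E) : Prop := ∃ z ∈ Submonoid.closure b, f * z ∈ O

/-- Infinitely near bad points. -/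
def rG {k E : Type u} [Field k] [Field E] [Algebra k E] (f : E)
    (l' l : Subalgebra k E × Set E) : Prop :=
  (Pt2 l.1 ∧ Pt2 l'.1 ∧ Ty l.1 l.2 ∧ Ty l'.1 l'.2 ∧ FC l.1 l.2 f ∧ FC l'.1 l'.2 f ∧
    ¬ Gd l.1 l.2 f ∧ ¬ Gd l'.1 l'.2 f ∧ ∃ e, Quad l.1 e l'.1 ∧ l'.2 = btr l.1 l.2 e l'.1) ∧
    Po l.1 l.2 f ∧ Po l'.1 l'.2 f

/-- `z` is contained in the ideal generated by `x` and `y ^ j`. -/
def Ox {k E : Type u} [Field k] [Field E] [Algebra k E] (O : Subalgebra k E) (x y : E) (j : ℕ)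
    (z : E) : Prop := ∃ α ∈ O, ∃ β ∈ O, z = α * x + β * y ^ j

/-- `z` is contained in the `l`-th power of the maximal ideal. -/
def Md {k E : Type u} [Field k] [Field E] [Algebra k E] (O : Subalgebra k E) (x y : E) (l : ℕ)
    (z : E) : Prop := ∃ c : ℕ → E, (∀ j, c j ∈ O) ∧
      z = ∑ j ∈ Finset.range (l + 1), c j * x ^ (l - j) * y ^ j

/-- `z` has the order `l` at the point `O` with the parameters `x, y`. -/
def Od {k E : Type u} [Field k] [Field E] [Algebra k E] (O : Subalgebra k E) (x y : E) (l : ℕ)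
    (z : E) : Prop := ∃ c : ℕ → E, (∀ j, c j ∈ O) ∧ (∃ j, j ≤ l ∧ ¬ NU O (c j)) ∧
      z = ∑ j ∈ Finset.range (l + 1), c j * x ^ (l - j) * y ^ j

/-- The boundary is `x = 0`; the ideal of the `θ f` is `x ^ m` times an ideal whose restriction to
`x = 0` has the order `c`. -/
def Dat {k E : Type u} [Field k] [Field E] [Algebra k E] (O : Subalgebra k E) (x y f : E) (m : ℤ)
    (c : ℕ) : Prop :=
  (∀ θ ∈ Th O (uo O x), Ox O x y c (θ f * x ^ (-m))) ∧
    ∃ θ ∈ Th O (uo O x), ¬ Ox O x y (c + 1) (θ f * x ^ (-m))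

/-- The boundary is `x * y = 0`; the ideal of the `θ f` is `x ^ m * y ^ n` times an ideal whose
restrictions to `x = 0` and `y = 0` have the orders `c` and `d`. -/
def Dat2 {k E : Type u} [Field k] [Field E] [Algebra k E] (O : Subalgebra k E) (x y f : E)
    (m n : ℤ) (c d : ℕ) : Prop :=
  (∀ θ ∈ Th O (uo O x ∪ uo O y), Ox O x y c (θ f * (x ^ (-m) * y ^ (-n))) ∧
    Ox O y x d (θ f * (x ^ (-m) * y ^ (-n)))) ∧
    (∃ θ ∈ Th O (uo O x ∪ uo O y), ¬ Ox O x y (c + 1) (θ f * (x ^ (-m) * y ^ (-n)))) ∧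
    ∃ θ ∈ Th O (uo O x ∪ uo O y), ¬ Ox O y x (d + 1) (θ f * (x ^ (-m) * y ^ (-n)))

/-- DER: derivations dual to parameters. -/
def WD_der : Prop := ∀ (k E : Type u) [Field k] [Field E] [Algebra k E] [PerfectField k],
  Algebra.trdeg k E = 2 → ∀ (O : Subalgebra k E) (x y : E), Pt2 O → Par O x y →
  ∃ D1 D2 : Derivation k E E, (∀ a ∈ O, D1 a ∈ O) ∧ (∀ a ∈ O, D2 a ∈ O) ∧ D1 x = 1 ∧ D1 y = 0 ∧
    D2 x = 0 ∧ D2 y = 1 ∧ ∀ D : Derivation k E E, D = D x • D1 + D y • D2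

/-- DERP: the `p`-th power of a derivation is a derivation. -/
def WD_derp : Prop := ∀ (p : ℕ) [Fact p.Prime] (k E : Type u) [Field k] [Field E] [Algebra k E]
  [CharP k p] (D : Derivation k E E), ∃ D' : Derivation k E E, ∀ a, D' a = D^[p] a

/-- KER: the common constants of all derivations are the `p`-th powers. -/
def WD_ker : Prop := ∀ (p : ℕ) [Fact p.Prime] (k E : Type u) [Field k] [Field E] [Algebra k E]
  [PerfectField k] [CharP k p] [Algebra.EssFiniteType k E] (z : E),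
  (∀ D : Derivation k E E, D z = 0) → ∃ w, w ^ p = z

/-- QP: polynomials on the exceptional divisor. -/
def WD_qp : Prop := ∀ (k E : Type u) [Field k] [Field E] [Algebra k E] [PerfectField k],
  Algebra.trdeg k E = 2 → ∀ (O O' : Subalgebra k E) (x y y' : E), Pt2 O → Pt2 O' → Par O x y →
  Quad O x O' → Par O' x y' → ∀ (l : ℕ) (P : ℕ → E), (∀ j, P j ∈ O) →
  (∃ j, j ≤ l ∧ ¬ NU O (P j)) →
    ¬ Ox O' x y' (l + 1) (∑ j ∈ Finset.range (l + 1), P j * (y / x) ^ j)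

/-- QS: restriction to the strict transform. -/
def WD_qs : Prop := ∀ (k E : Type u) [Field k] [Field E] [Algebra k E] [PerfectField k],
  Algebra.trdeg k E = 2 → ∀ (O O' : Subalgebra k E) (x y : E), Pt2 O → Pt2 O' → Par O x y →
  Quad O y O' → Par O' y (x / y) → ∀ z ∈ O, ∀ j, Ox O' (x / y) y j z → Ox O x y j z

/-- OD: orders. -/
def WD_od : Prop := ∀ (k E : Type u) [Field k] [Field E] [Algebra k E] [PerfectField k],
  Algebra.trdeg k E = 2 → ∀ (O : Subalgebra k E) (x y : E), Pt2 O → Par O x y →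
  (∀ z ∈ O, z ≠ 0 → ∃ l, Od O x y l z) ∧ (∀ z l, Od O x y l z → Md O x y l z) ∧
  (∀ z l l', Md O x y l z → l' ≤ l → Md O x y l' z) ∧
  (∀ z l c, Md O x y l z → c ≤ l → Ox O x y c z ∧ Ox O y x c z) ∧
  ∀ z w l, Od O x y l z → Md O x y (l + 1) w → Od O x y l (z + w)

/-- DAT: existence of the invariants. -/
def WD_dat : Prop := ∀ (k E : Type u) [Field k] [Field E] [Algebra k E]
  [PerfectField k], Algebra.trdeg k E = 2 → ∀ (O : Subalgebra k E) (x y f : E),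
  Pt2 O → Par O x y → (∃ D : Derivation k E E, D f ≠ 0) →
  ((∃ N : ℕ, f * x ^ N ∈ O) → ∃ m c, Dat O x y f m c) ∧
  ((∃ N : ℕ, f * (x * y) ^ N ∈ O) → ∃ m n c d, Dat2 O x y f m n c d)

/-- INV: uniqueness and invariance of the invariants. -/
def WD_inv : Prop := ∀ (k E : Type u) [Field k] [Field E] [Algebra k E]
  [PerfectField k], Algebra.trdeg k E = 2 → ∀ (O : Subalgebra k E) (x y f : E),
  Pt2 O → Par O x y →
  (∀ m c m' c', Dat O x y f m c → Dat O x y f m' c' → m = m' ∧ c = c') ∧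
  (∀ m n c d m' n' c' d', Dat2 O x y f m n c d → Dat2 O x y f m' n' c' d' →
    m = m' ∧ n = n' ∧ c = c' ∧ d = d') ∧
  (∀ x' y' m c, x' ∈ uo O x → Par O x' y' → Dat O x y f m c → Dat O x' y' f m c) ∧
  (∀ x' y' m n c d, x' ∈ uo O x → y' ∈ uo O y → Dat2 O x y f m n c d →
    Dat2 O x' y' f m n c d) ∧
  (∀ m n c d, Dat2 O x y f m n c d → Dat2 O y x f n m d c) ∧
  (∀ m, Dat O x y f m 0 → Gd O (uo O x) f) ∧
  (∀ m n d, Dat2 O x y f m n 0 d → Gd O (uo O x ∪ uo O y) f) ∧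
  (∀ m n c, Dat2 O x y f m n c 0 → Gd O (uo O x ∪ uo O y) f)

/-- THB: bases of the logarithmic derivations at a point and at the points of the blowup. -/
def WD_thb : Prop := ∀ (k E : Type u) [Field k] [Field E] [Algebra k E] [PerfectField k],
  Algebra.trdeg k E = 2 → ∀ (O : Subalgebra k E) (x y : E) (D1 D2 : Derivation k E E),
  Pt2 O → Par O x y → (∀ a ∈ O, D1 a ∈ O) → (∀ a ∈ O, D2 a ∈ O) → D1 x = 1 → D1 y = 0 →
  D2 x = 0 → D2 y = 1 → (∀ D : Derivation k E E, D = D x • D1 + D y • D2) →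
  (∀ θ, θ ∈ Th O (uo O x) ↔ ∃ α ∈ O, ∃ β ∈ O, θ = α • (x • D1) + β • D2) ∧
  (∀ θ, θ ∈ Th O (uo O x ∪ uo O y) ↔ ∃ α ∈ O, ∃ β ∈ O, θ = α • (x • D1) + β • (y • D2)) ∧
  ∀ O' : Subalgebra k E, Pt2 O' →
  (Quad O x O' → ∀ θ, θ ∈ Th O' (uo O' x) ↔
    ∃ α ∈ O', ∃ β ∈ O', θ = α • (x • D1 + y • D2) + β • (x • D2)) ∧
  (Quad O y O' → ∀ θ, θ ∈ Th O' (uo O' y ∪ uo O' (x / y)) ↔
    ∃ α ∈ O', ∃ β ∈ O', θ = α • (x • D1) + β • (y • D2)) ∧
  (Quad O x O' → (y / x)⁻¹ ∈ O' → ∀ θ, θ ∈ Th O' (uo O' x) ↔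
    ∃ α ∈ O', ∃ β ∈ O', θ = α • (x • D1) + β • (y • D2))

/-- BND: the boundary of the blowup. -/
def WD_bnd : Prop := ∀ (k E : Type u) [Field k] [Field E] [Algebra k E] [PerfectField k],
  Algebra.trdeg k E = 2 → ∀ (O O' : Subalgebra k E) (e : E), Pt2 O → Pt2 O' → Quad O e O' →
  (∃ y', Par O' e y') ∧ btr O ∅ e O' = uo O' e ∧
  (∀ x y, Par O x y →
    (Quad O x O' ∧ btr O (uo O x) e O' = uo O' x) ∨
    (∃ y', Par O x y' ∧ Quad O y' O' ∧ Par O' y' (x / y') ∧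
      btr O (uo O x) e O' = uo O' y' ∪ uo O' (x / y'))) ∧
  ∀ x y, Par O x y →
    (Quad O x O' ∧ (y / x)⁻¹ ∈ O' ∧ btr O (uo O x ∪ uo O y) e O' = uo O' x) ∨
    (Quad O x O' ∧ Par O' x (y / x) ∧
      btr O (uo O x ∪ uo O y) e O' = uo O' x ∪ uo O' (y / x)) ∨
    (Quad O y O' ∧ Par O' y (x / y) ∧
      btr O (uo O x ∪ uo O y) e O' = uo O' y ∪ uo O' (x / y))

/-- F1: the blowup of a point on one component, at a point on the new component only. -/
def WD_f1 : Prop := ∀ (k E : Type u) [Field k] [Field E] [Algebra k E]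
  [PerfectField k], Algebra.trdeg k E = 2 →
  ∀ (O O' : Subalgebra k E) (x y y' f : E) (m m' : ℤ) (c c' : ℕ),
  Pt2 O → Pt2 O' → Par O x y → Quad O x O' → Par O' x y' → Dat O x y f m c → 1 ≤ c →
  Dat O' x y' f m' c' → c' ≤ c ∧ (1 ≤ c' → m + 2 ≤ m')

/-- F2: the blowup of a point on one component, at a point on both components. -/
def WD_f2 : Prop := ∀ (k E : Type u) [Field k] [Field E] [Algebra k E]
  [PerfectField k], Algebra.trdeg k E = 2 →
  ∀ (O O' : Subalgebra k E) (x y f : E) (m m' n' : ℤ) (c c' d' : ℕ),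
  Pt2 O → Pt2 O' → Par O x y → Quad O y O' → Par O' y (x / y) → Dat O x y f m c → 1 ≤ c →
  Dat2 O' y (x / y) f m' n' c' d' → min c' d' ≤ c ∧ (2 ≤ c → min c' d' < c) ∧
    (c = 1 → 1 ≤ c' → 1 ≤ d' → ∀ z, NU O' z →
      ∃ θ ∈ Th O' (uo O' y ∪ uo O' (x / y)), θ f = z * (y ^ m' * (x / y) ^ n'))

/-- F3: the blowup of a point on two components. -/
def WD_f3 : Prop := ∀ (k E : Type u) [Field k] [Field E] [Algebra k E]
  [PerfectField k], Algebra.trdeg k E = 2 →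
  ∀ (O O' : Subalgebra k E) (x y f : E) (m n : ℤ) (c d : ℕ),
  Pt2 O → Pt2 O' → Par O x y → Quad O x O' → Dat2 O x y f m n c d → 1 ≤ c → 1 ≤ d →
  (∀ (y' : E) (m' : ℤ) (c' : ℕ), (y / x)⁻¹ ∈ O' → Par O' x y' → Dat O' x y' f m' c' →
    c' ≤ min c d) ∧
  ∀ (m' n' : ℤ) (c' d' : ℕ), Par O' x (y / x) → Dat2 O' x (y / x) f m' n' c' d' →
    c' ≤ min c d ∧ c' + d' ≤ d

/-- F4: the blowup of a point on two components where the residual ideal is the maximal ideal. -/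
def WD_f4 : Prop := ∀ (k E : Type u) [Field k] [Field E] [Algebra k E]
  [PerfectField k], Algebra.trdeg k E = 2 →
  ∀ (O O' : Subalgebra k E) (x y f : E) (m n : ℤ) (c d : ℕ),
  Pt2 O → Pt2 O' → Par O x y → Quad O x O' → Dat2 O x y f m n c d → 1 ≤ c → 1 ≤ d →
  (∀ z, NU O z → ∃ θ ∈ Th O (uo O x ∪ uo O y), θ f = z * (x ^ m * y ^ n)) →
  ((y / x)⁻¹ ∈ O' → Gd O' (uo O' x) f) ∧ Gd O' (uo O' x ∪ uo O' (y / x)) f

/-- LIM: there is no infinite sequence of points on the last component only. -/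
def WD_lim : Prop := ∀ (k E : Type u) [Field k] [Field E] [Algebra k E]
  [PerfectField k], Algebra.trdeg k E = 2 →
  ∀ (O : ℕ → Subalgebra k E) (x : E) (y : ℕ → E) (f : E) (m : ℕ → ℤ) (c : ℕ → ℕ),
  (∀ n, Pt2 (O n)) → (∀ n, Par (O n) x (y n)) → (∀ n, Quad (O n) x (O (n + 1))) →
  FC (O 0) (uo (O 0) x) f → (∀ n, Dat (O n) x (y n) f (m n) (c n)) →
  (∀ n, m n + 2 ≤ m (n + 1)) → False

/-- GWF: there is no infinite sequence of infinitely near bad points. -/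
def WD_gwf : Prop := ∀ (k E : Type u) [Field k] [Field E] [Algebra k E]
  [PerfectField k], Algebra.trdeg k E = 2 → ∀ f : E,
  (∃ D : Derivation k E E, D f ≠ 0) → WellFounded (rG (k := k) f)

/-- TY: the boundary has simple normal crossings at the points. -/
def WD_ty : Prop := ∀ (k E : Type u) [Field k] [Field E] [Algebra k E] [PerfectField k],
  Algebra.trdeg k E = 2 → ∀ (s : SM k E) (t : s.T) (O : Subalgebra k E), IsPt (s.M.A t) O →
  Ty O (bdy s.M O)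

/-- BT: the boundary of the blowup. -/
def WD_bt : Prop := ∀ (k E : Type u) [Field k] [Field E] [Algebra k E] (T T' I : Type)
  (M : LM (⊥ : Subalgebra k E) ⊤ T I) (O : Subalgebra k E)
  (M' : LM (⊥ : Subalgebra k E) ⊤ T' (Option I)) (π : T' → T), Blow M O M' π →
  (∃ t, IsPt (M.A t) O) → ∀ t' O', IsPt (M'.A t') O' →
    (¬ NU O' (M'.x t' none) ∧ O' ≠ O ∧ bdy M' O' = bdy M O') ∨
    (Quad O (M'.x t' none) O' ∧ bdy M' O' = btr O (bdy M O) (M'.x t' none) O')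

/-- The condition that `f` has no poles and `d f` no zeros in codimension one outside of the
boundary. -/
def CO {k E : Type u} [Field k] [Field E] [Algebra k E] (s : SM k E) (f : E) : Prop :=
  ∀ W, s.Dv W → s.Bdy W ∨ (f ∈ W ∧ ∃ D : Derivation k E E, (∀ a ∈ W, D a ∈ W) ∧ D f ≠ 0 ∧
    D f ∈ W ∧ (D f)⁻¹ ∈ W)

/-- GIN: the initial surface. -/
def WD_gin : Prop := ∀ (k E : Type u) [Field k] [Field E] [Algebra k E] [PerfectField k],
  Algebra.trdeg k E = 2 → ∀ (s : SM k E) (G : Type) [Finite G] (g : G → E), (∀ b, g b ≠ 0) →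
  ∀ f : E, (∃ D : Derivation k E E, D f ≠ 0) →
  ∃ (s' : SM k E) (Γ : G → s'.I → ℤ), Fn s'.M g Γ ∧ CO s' f

/-- FCS: local form of the condition `CO`. -/
def WD_fcs : Prop := ∀ (k E : Type u) [Field k] [Field E] [Algebra k E] [PerfectField k],
  Algebra.trdeg k E = 2 → ∀ (s : SM k E) (f : E), (∃ D : Derivation k E E, D f ≠ 0) → CO s f →
  ∀ t O, IsPt (s.M.A t) O → FC O (bdy s.M O) f

/-- PO: no poles outside of the boundary. -/
def WD_po : Prop := ∀ (k E : Type u) [Field k] [Field E] [Algebra k E] [PerfectField k],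
  Algebra.trdeg k E = 2 → ∀ (s : SM k E) (f : E), CO s f →
  ∀ t O, IsPt (s.M.A t) O → Po O (bdy s.M O) f

/-- FINB: there are finitely many bad points. -/
def WD_finb : Prop := ∀ (k E : Type u) [Field k] [Field E] [Algebra k E] [PerfectField k],
  Algebra.trdeg k E = 2 → ∀ (s : SM k E) (f : E), (∃ D : Derivation k E E, D f ≠ 0) →
  {O | (∃ t, IsPt (s.M.A t) O) ∧ ¬ Gd O (bdy s.M O) f}.Finite

/-- GIR0: Giraud's theorem: after finitely many blowups of points all points are good. -/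
def WD_gir0 : Prop := ∀ (k E : Type u) [Field k] [Field E] [Algebra k E]
  [PerfectField k], Algebra.trdeg k E = 2 → ∀ (s : SM k E) (G : Type) [Finite G]
  (g : G → E) (Γ : G → s.I → ℤ), Fn s.M g Γ → ∀ f : E, (∃ D : Derivation k E E, D f ≠ 0) →
  CO s f → ∃ (s' : SM k E) (Γ' : G → s'.I → ℤ), Fn s'.M g Γ' ∧ CO s' f ∧
    ∀ t O, IsPt (s'.M.A t) O → Gd O (bdy s'.M O) f

/-- LOC: the normal form. -/
def WD_loc : Prop := ∀ (p : ℕ) [Fact p.Prime] (k E : Type u) [Field k] [Field E] [Algebra k E]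
  [PerfectField k] [CharP k p], Algebra.trdeg k E = 2 → ∀ (s : SM k E) (G : Type) [Finite G]
  (g : G → E) (Γ : G → s.I → ℤ), Fn s.M g Γ → ∀ f : E, CO s f →
  (∀ t O, IsPt (s.M.A t) O → Gd O (bdy s.M O) f) →
  ∃ (T I : Type) (_ : Finite T) (_ : Fintype I) (M : LM (⊥ : Subalgebra k E) ⊤ T I)
    (Γ' : G → I → ℤ) (n : I → ℤ) (a h : T → E), Fn M g Γ' ∧ NFH p M f n a h ∧ Frc M

end Pool.Agent.W558
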