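import Pool.Agent.W578.WD.Norm
import Pool.Agent.W349.WD.Ovp
import Pool.Agent.W349.WD.Sum
import Pool.Agent.W85.WD.Bun
import Pool.Agent.W64.WD.Cp
import Pool.Agent.W924.WD.PBL
import Pool.Agent.W52.WD.Tbl
import Pool.Agent.W216.WD.Ppr
import Pool.Agent.W177.WD.PCut
import Pool.Agent.W462.WD.Res
import Pool.Agent.W932.WD.Der
import Pool.Agent.W411.WD.Ker
import Pool.Agent.W932.WD.Qp
import Pool.Agent.W52.WD.Qs
import Pool.Agent.W932.WD.Od
import Pool.Agent.W932.WD.Dat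
import Pool.Agent.W499.WD.Inv
import Pool.Agent.W337.WD.Thb
import Pool.Agent.W372.WD.Bnd
import Pool.Agent.W193.WD.F1
import Pool.Agent.W150.WD.F2
import Pool.Agent.W499.WD.F34
import Pool.Agent.W978.WD.Lim
import Pool.Agent.W216.WD.Gwf
import Pool.Agent.W216.WD.Tybt
import Pool.Agent.W930.WD.Gin
import Pool.Agent.W327.WD.FCS
import Pool.Agent.W376.WD.Finb
import Pool.Agent.W558.WD.Gir0
import Pool.Agent.W191.WD.Prod
import Pool.Agent.W902.WD.Loc
import Pool.Agent.W417.WD.Po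
import Pool.Agent.W558.S.All

set_option autoImplicit false

universe u

namespace Pool.Agent.W558

theorem wd_norm : WD_norm.{u} := Pool.Agent.W578.WD.Norm.main
theorem wd_ovp : WD_ovp.{u} := Pool.Agent.W349.WD.main
theorem wd_sum : WD_sum.{u} := Pool.Agent.W349.WD.Sum.main wd_ovp
theorem wd_bun : WD_bun.{u} := Pool.Agent.W85.WD.Bun.main wd_norm
theorem wd_cp : WD_cp.{u} := Pool.Agent.W64.WD.main
theorem wd_pbl : WD_pbl.{u} := Pool.Agent.W924.WD.PBL.main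
theorem wd_tbl : WD_tbl.{u} := Pool.Agent.W52.WD.tbl
theorem wd_ppr : WD_ppr.{u} := Pool.Agent.W216.WD.Ppr.main wd_cp wd_pbl wd_tbl
theorem wd_pcut : WD_pcut.{u} := Pool.Agent.W177.WD.main
theorem wd_res : WD_res.{u} := Pool.Agent.W462.WD.Res.main wd_ovp wd_norm
theorem wd_der : WD_der.{u} := Pool.Agent.W932.WD.main
theorem wd_derp : WD_derp.{u} := Pool.Agent.W411.WD.derp
theorem wd_ker : WD_ker.{u} := Pool.Agent.W411.WD.ker
theorem wd_qp : WD_qp.{u} := Pool.Agent.W932.WD.qp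
theorem wd_qs : WD_qs.{u} := Pool.Agent.W52.WD.main
theorem wd_od : WD_od.{u} := Pool.Agent.W932.WD.od
theorem wd_inv : WD_inv.{u} := Pool.Agent.W499.WD.main
theorem wd_thb : WD_thb.{u} := Pool.Agent.W337.WD.main
theorem wd_dat : WD_dat.{u} := Pool.Agent.W932.WD.dat wd_der wd_thb
theorem wd_bnd : WD_bnd.{u} := Pool.Agent.W372.WD.Bnd.main
theorem wd_f1 : WD_f1.{u} := Pool.Agent.W193.WD.F1.main wd_der wd_thb wd_od wd_qp wd_inv
theorem wd_f2 : WD_f2.{u} := Pool.Agent.W150.WD.main wd_der wd_thb wd_od wd_qp wd_qs wd_inv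
theorem wd_f3 : WD_f3.{u} := Pool.Agent.W499.WD.f3 wd_der wd_thb wd_od wd_qp wd_qs wd_inv
theorem wd_f4 : WD_f4.{u} := Pool.Agent.W499.WD.f4 wd_der wd_thb
theorem wd_lim : WD_lim.{u} := Pool.Agent.W978.WD.main
theorem wd_gwf : WD_gwf.{u} :=
  Pool.Agent.W216.WD.Gwf.main wd_dat wd_inv wd_bnd wd_f1 wd_f2 wd_f3 wd_f4 wd_lim
theorem wd_ty : WD_ty.{u} := Pool.Agent.W216.WD.Tybt.ty
theorem wd_bt : WD_bt.{u} := Pool.Agent.W216.WD.Tybt.bt
theorem wd_gin : WD_gin.{u} := Pool.Agent.W930.WDG.main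
theorem wd_fcs : WD_fcs.{u} := Pool.Agent.W327.WD.main
theorem wd_finb : WD_finb.{u} := Pool.Agent.W376.WD.main wd_norm
theorem wd_po : WD_po.{u} := fun k E _ _ _ _ h2 s f hCO t O hO =>
  Pool.Agent.W417.WD.po h2 s f hCO t O hO
theorem wd_gir0 : WD_gir0.{u} := Pool.Agent.W558.Gir0.main wd_ty wd_bt wd_fcs wd_finb wd_gwf wd_po
theorem wd_prod : WD_prod.{u} := Pool.Agent.W191.WD.Prod.main
theorem wd_loc : WD_loc.{u} := Pool.Agent.W902.WD.main wd_der wd_derp wd_ker wd_ty wd_fcs wd_thb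

end Pool.Agent.W558
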