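import Pool.Agent.W558.WD.Asm3

set_option autoImplicit false
set_option linter.unusedVariables false
set_option linter.unusedSectionVars false

universe u

namespace Pool.Agent.W558

section plane

variable {k E : Type u} [Field k] [Field E] [Algebra k E]

lemma frac_of_top {s : Set E} (h : IntermediateField.adjoin k s = ⊤) (x : E) :
    ∃ a ∈ Algebra.adjoin k s, ∃ b ∈ Algebra.adjoin k s, b ≠ 0 ∧ x = a * b⁻¹ := by
  have hx : x ∈ IntermediateField.adjoin k s := h ▸ IntermediateField.mem_top
  obtain ⟨r, hr, t, ht, rfl⟩ := IntermediateField.mem_adjoin_iff_div.1 hx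
  by_cases h0 : t = 0
  · exact ⟨0, Subalgebra.zero_mem _, 1, Subalgebra.one_mem _, one_ne_zero, by simp [h0]⟩
  · exact ⟨r, hr, t, ht, h0, div_eq_mul_inv r t⟩

lemma ind_of_top (h2 : Algebra.trdeg k E = 2) (u : Fin 2 → E)
    (h : IntermediateField.adjoin k (Set.range u) = ⊤) : AlgebraicIndependent k u := by
  have hfr := frac_of_top h
  have halg : Algebra.IsAlgebraic (Algebra.adjoin k (Set.range u)) E := by
    refine ⟨fun x => ?_⟩
    obtain ⟨a, ha, b, hb, hb0, rfl⟩ := hfr x
    refine ⟨Polynomial.C ⟨b, hb⟩ * Polynomial.X - Polynomial.C ⟨a, ha⟩, ?_, ?_⟩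
    · intro h0
      have h1 := congrArg (fun P => Polynomial.coeff P 1) h0
      simp only [Polynomial.coeff_sub, Polynomial.coeff_C_mul, Polynomial.coeff_X_one, mul_one,
        Polynomial.coeff_zero] at h1
      rw [Polynomial.coeff_C, if_neg one_ne_zero, sub_zero] at h1
      exact hb0 (congrArg Subtype.val h1)
    · rw [map_sub, map_mul, Polynomial.aeval_C, Polynomial.aeval_X, Polynomial.aeval_C]
      change b * (a * b⁻¹) - a = 0
      field_simp
      ring
  refine (Algebra.IsAlgebraic.isTranscendenceBasis_of_lift_le_trdeg_of_finite k u ?_).1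
  rw [h2]
  simp

lemma sf_of_ind {u : Fin 2 → E} (hu : AlgebraicIndependent k u)
    (h : IntermediateField.adjoin k (Set.range u) = ⊤) :
    Sf (Algebra.adjoin k (Set.range u)) where
  sm := by
    have : Algebra.Smooth k (MvPolynomial (Fin 2) k) := ⟨inferInstance, inferInstance⟩
    exact Algebra.Smooth.of_equiv hu.aevalEquiv
  fr := frac_of_top h

/-- The projective plane. -/
theorem hasModel_plane (h2 : Algebra.trdeg k E = 2) {u : Fin 2 → E} (hu : ∀ j, u j ≠ 0)
    (h : IntermediateField.adjoin k (Set.range u) = ⊤) : HasModel k E := by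
  let H : Fin 3 → E := ![1, u 0, u 1]
  have hH : ∀ i, H i ≠ 0 := by
    intro i
    fin_cases i
    · exact one_ne_zero
    · exact hu 0
    · exact hu 1
  refine ⟨2, H, hH, ?_⟩
  have key : ∀ (i j l : Fin 3), (∀ q, q = i ∨ q = j ∨ q = l) →
      Sf (Algebra.adjoin k (Set.range fun j => H j / H i)) := by
    intro i j l hijl
    let w : Fin 2 → E := ![H j / H i, H l / H i]
    have e1 : Algebra.adjoin k (Set.range fun j => H j / H i) =
        Algebra.adjoin k (Set.range w) := by
      apply le_antisymm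
      · rw [Algebra.adjoin_le_iff]
        rintro _ ⟨q, rfl⟩
        rcases hijl q with rfl | rfl | rfl
        · change H q / H q ∈ _
          rw [div_self (hH q)]
          exact Subalgebra.one_mem _
        · exact Algebra.subset_adjoin ⟨0, rfl⟩
        · exact Algebra.subset_adjoin ⟨1, rfl⟩
      · rw [Algebra.adjoin_le_iff]
        rintro _ ⟨q, rfl⟩
        fin_cases q
        · exact Algebra.subset_adjoin ⟨j, rfl⟩
        · exact Algebra.subset_adjoin ⟨l, rfl⟩
    have e2 : ∀ q, H q / H i ∈ IntermediateField.adjoin k (Set.range w) := by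
      intro q
      rcases hijl q with rfl | rfl | rfl
      · rw [div_self (hH q)]
        exact IntermediateField.one_mem _
      · exact IntermediateField.subset_adjoin _ _ ⟨0, rfl⟩
      · exact IntermediateField.subset_adjoin _ _ ⟨1, rfl⟩
    have e3 : ∀ q, H q ∈ IntermediateField.adjoin k (Set.range w) := by
      intro q
      have h3 := IntermediateField.div_mem _ (e2 q) (e2 0)
      have h4 : H q / H i / (H 0 / H i) = H q := by
        have := hH i
        change H q / H i / (1 / H i) = H q
        field_simp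
      rwa [h4] at h3
    have e4 : IntermediateField.adjoin k (Set.range w) = ⊤ := by
      rw [eq_top_iff, ← h, IntermediateField.adjoin_le_iff]
      rintro _ ⟨q, rfl⟩
      fin_cases q
      · exact e3 1
      · exact e3 2
    rw [e1]
    exact sf_of_ind (ind_of_top h2 w e4) e4
  intro i
  fin_cases i
  · exact key 0 1 2 (by decide)
  · exact key 1 0 2 (by decide)
  · exact key 2 0 1 (by decide)

end plane

section rf

variable (k : Type u) [Field k]

lemma trdeg_RF2 : Algebra.trdeg k (RF k (Fin 2)) = 2 := by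
  have h := (rat_RF (k := k) (Fin 2))
  have halg : Algebra.IsAlgebraic (Algebra.adjoin k (Set.range (fun j : Fin 2 =>
      algebraMap (MvPolynomial (Fin 2) k) (RF k (Fin 2)) (MvPolynomial.X j)))) (RF k (Fin 2)) := by
    refine ⟨fun x => ?_⟩
    obtain ⟨P, Q, hQ, h1⟩ := h.gen x
    have hm : ∀ P : MvPolynomial (Fin 2) k, MvPolynomial.aeval (fun j : Fin 2 =>
        algebraMap (MvPolynomial (Fin 2) k) (RF k (Fin 2)) (MvPolynomial.X j)) P ∈
        Algebra.adjoin k (Set.range (fun j : Fin 2 =>
          algebraMap (MvPolynomial (Fin 2) k) (RF k (Fin 2)) (MvPolynomial.X j))) := by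
      intro P
      rw [Algebra.adjoin_range_eq_range_aeval]
      exact ⟨P, rfl⟩
    refine ⟨Polynomial.C ⟨_, hm Q⟩ * Polynomial.X - Polynomial.C ⟨_, hm P⟩, ?_, ?_⟩
    · intro h0
      have h1 := congrArg (fun P => Polynomial.coeff P 1) h0
      simp only [Polynomial.coeff_sub, Polynomial.coeff_C_mul, Polynomial.coeff_X_one, mul_one,
        Polynomial.coeff_zero] at h1
      rw [Polynomial.coeff_C, if_neg one_ne_zero, sub_zero] at h1
      exact hQ ((injective_iff_map_eq_zero _).1 h.ind Q (congrArg Subtype.val h1))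
    · rw [map_sub, map_mul, Polynomial.aeval_C, Polynomial.aeval_X, Polynomial.aeval_C, mul_comm]
      change x * _ - _ = 0
      exact sub_eq_zero.2 h1
  have hb : IsTranscendenceBasis k (fun j : Fin 2 =>
      algebraMap (MvPolynomial (Fin 2) k) (RF k (Fin 2)) (MvPolynomial.X j)) :=
    h.ind.isTranscendenceBasis_iff_isAlgebraic.2 halg
  have h5 := hb.lift_cardinalMk_eq_trdeg
  simpa using h5.symm

lemma top_RF2 : IntermediateField.adjoin k (Set.range (fun j : Fin 2 =>
      algebraMap (MvPolynomial (Fin 2) k) (RF k (Fin 2)) (MvPolynomial.X j))) = ⊤ := by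
  rw [eq_top_iff]
  intro x _
  obtain ⟨P, Q, hQ, h1⟩ := (rat_RF (k := k) (Fin 2)).gen x
  have h0 : MvPolynomial.aeval (fun j : Fin 2 =>
        algebraMap (MvPolynomial (Fin 2) k) (RF k (Fin 2)) (MvPolynomial.X j)) Q ≠ 0 :=
    fun h => hQ ((injective_iff_map_eq_zero _).1 (rat_RF (k := k) (Fin 2)).ind Q h)
  rw [IntermediateField.mem_adjoin_iff_div]
  refine ⟨_, ?_, _, ?_, (eq_div_iff h0).2 h1⟩
  · rw [Algebra.adjoin_range_eq_range_aeval]
    exact ⟨P, rfl⟩
  · rw [Algebra.adjoin_range_eq_range_aeval]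
    exact ⟨Q, rfl⟩

theorem hasModel_RF2 : HasModel k (RF k (Fin 2)) := by
  refine hasModel_plane (trdeg_RF2 k) (u := fun j : Fin 2 =>
      algebraMap (MvPolynomial (Fin 2) k) (RF k (Fin 2)) (MvPolynomial.X j)) ?_ (top_RF2 k)
  intro j
  rw [Ne, FaithfulSMul.algebraMap_eq_zero_iff]
  exact MvPolynomial.X_ne_zero j

end rf

end Pool.Agent.W558
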