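import Pool.Agent.W558.WD.Stms

set_option autoImplicit false
set_option linter.unusedVariables false
set_option linter.unusedSectionVars false

universe u

open Polynomial TensorProduct

namespace Pool.Agent.W558

/-- The field `L` has a model on which the functions `f j` have a joint normal form and the
functions `g b` are locally monomials. -/
def GM (p : ℕ) (k : Type u) {L : Type u} [Field k] [Field L] [Algebra k L] {ι G : Type}
    (f : ι → L) (g : G → L) : Prop :=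
  ∃ (T I : Type) (_ : Finite T) (_ : Fintype I) (M : LM (⊥ : Subalgebra k L) ⊤ T I)
    (n : ι → I → ℤ) (a h : T → ι → L) (Γ : G → I → ℤ), NFJ p M f n a h ∧ Fn M g Γ ∧ Frc M

section gm

variable {p : ℕ} {k : Type u} [Field k]

lemma GM.reindex {L : Type u} [Field L] [Algebra k L] {ι G ι' G' : Type} {f : ι → L} {g : G → L}
    (h : GM p k f g) (e : ι' → ι) (he : Function.Injective e) (e' : G' → G) :
    GM p k (f ∘ e) (g ∘ e') := by
  obtain ⟨T, I, hT, hI, M, n, a, h, Γ, hN, hF, hR⟩ := h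
  refine ⟨T, I, hT, hI, M, n ∘ e, fun t j => a t (e j), fun t j => h t (e j), Γ ∘ e',
    ⟨fun t j => hN.hA t _, fun t j => hN.eq t _, ?_⟩, fun b t => hF (e' b) t, hR⟩
  intro t κ _ _ φ j
  obtain ⟨v, hv, hv'⟩ := hN.ln t κ φ (e j)
  exact ⟨v, hv, fun l hl => hv' (e l) fun h => hl (he h)⟩

/-- Products, with algebra homomorphisms. -/
theorem gm_prod (hprod : WD_prod.{u}) [Fact p.Prime] {E1 E2 L : Type u} [Field E1] [Field E2]
    [Field L] [Algebra k E1] [Algebra k E2] [Algebra k L] (i1 : E1 →ₐ[k] L) (i2 : E2 →ₐ[k] L)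
    (hinj : Function.Injective (Algebra.TensorProduct.productMap i1 i2))
    (hfr : ∀ x : L, ∃ a b : E1 ⊗[k] E2, b ≠ 0 ∧
      x * Algebra.TensorProduct.productMap i1 i2 b = Algebra.TensorProduct.productMap i1 i2 a)
    {ι1 G1 ι2 G2 : Type} {f1 : ι1 → E1} {g1 : G1 → E1} {f2 : ι2 → E2} {g2 : G2 → E2}
    (h1 : GM p k f1 g1) (h2 : GM p k f2 g2) :
    GM p k (Sum.elim (fun j => i1 (f1 j)) fun j => i2 (f2 j))
      (Sum.elim (fun j => i1 (g1 j)) fun j => i2 (g2 j)) := by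
  obtain ⟨T1, I1, hT1, hI1, M1, n1, a1, h1, Γ1, hN1, hF1, hR1⟩ := h1
  obtain ⟨T2, I2, hT2, hI2, M2, n2, a2, h2, Γ2, hN2, hF2, hR2⟩ := h2
  let _ : Algebra E1 L := i1.toRingHom.toAlgebra
  let _ : Algebra E2 L := i2.toRingHom.toAlgebra
  have t1 : IsScalarTower k E1 L := IsScalarTower.of_algebraMap_eq fun x => (i1.commutes x).symm
  have t2 : IsScalarTower k E2 L := IsScalarTower.of_algebraMap_eq fun x => (i2.commutes x).symm
  have e1 : IsScalarTower.toAlgHom k E1 L = i1 := AlgHom.ext fun x => rfl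
  have e2 : IsScalarTower.toAlgHom k E2 L = i2 := AlgHom.ext fun x => rfl
  obtain ⟨T, I, hT, hI, M, n, a, h, Γ, hN, hF, hR⟩ := hprod p k E1 E2 L
    (by rw [e1, e2]; exact hinj) (by rw [e1, e2]; exact hfr) T1 I1 T2 I2 ι1 ι2 G1 G2 M1 M2
    f1 n1 a1 h1 f2 n2 a2 h2 g1 Γ1 g2 Γ2 hN1 hN2 hF1 hF2 hR1 hR2
  exact ⟨T, I, hT, hI, M, n, a, h, Γ, hN, hF, hR⟩

/-- The point. -/
theorem gm_point {L : Type u} [Field L] [Algebra k L]
    (hL : ∀ x : L, ∃ c : k, algebraMap k L c = x) {ι G : Type} [IsEmpty ι] [IsEmpty G]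
    (f : ι → L) (g : G → L) : GM p k f g := by
  have hbot : ∀ x : L, x ∈ (⊥ : Subalgebra k L) := fun x => by
    obtain ⟨c, rfl⟩ := hL x
    exact Subalgebra.algebraMap_mem _ c
  have hsm : Algebra.Smooth k (⊥ : Subalgebra k L) :=
    Algebra.Smooth.of_equiv (Algebra.botEquiv k L).symm
  let M : LM (⊥ : Subalgebra k L) ⊤ Unit Empty :=
    { A := fun _ => ⊥
      H := fun _ => 1
      x := fun _ i => i.elim
      sm := fun _ => hsm
      base := fun _ => le_rfl
      H0 := fun _ => one_ne_zero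
      HR := fun _ => Algebra.mem_top
      rt := fun _ _ => hbot _
      gl := fun _ _ f _ => ⟨0, hbot _⟩
      dn := fun _ f _ => ⟨0, Algebra.mem_top⟩
      cv := fun V hV => ⟨(), fun f _ => hV f (hbot f)⟩
      xA := fun _ i => i.elim
      x0 := fun _ i => i.elim
      gi := fun _ _ i => i.elim
      snc := fun _ κ _ _ φ i => i.elim }
  refine ⟨Unit, Empty, inferInstance, inferInstance, M, fun j => isEmptyElim j,
    fun _ j => isEmptyElim j, fun _ j => isEmptyElim j, fun b => isEmptyElim b,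
    ⟨fun _ j => isEmptyElim j, fun _ j => isEmptyElim j, fun _ κ _ _ φ j => isEmptyElim j⟩,
    fun b => isEmptyElim b, ?_⟩
  intro t x
  exact ⟨x, hbot x, 1, hbot 1, one_ne_zero, by simp⟩

lemma prod_ov {L : Type u} [Field L] [Algebra k L] {R0 R R0' R' : Subalgebra k L}
    {T T' I I' : Type} [Fintype I] [Fintype I'] {M : LM R0 R T I} {M' : LM R0' R' T' I'}
    {π : T' → T} {Θ : I' → I → ℤ} (h : Ov M M' π Θ) (t' : T') (γ : I → ℤ) :
    ∏ i, M.x (π t') i ^ γ i = ∏ i', M'.x t' i' ^ (∑ i, Θ i' i * γ i) := by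
  have h1 : ∀ i, M.x (π t') i ^ γ i = ∏ i', M'.x t' i' ^ (Θ i' i * γ i) := by
    intro i
    rw [h.x, ← Finset.prod_zpow]
    exact Finset.prod_congr rfl fun i' _ => by rw [zpow_mul]
  rw [Finset.prod_congr rfl fun i _ => h1 i, Finset.prod_comm]
  refine Finset.prod_congr rfl fun i' _ => ?_
  have h2 := M'.x0 t' i'
  classical
  have h3 : ∀ s : Finset I, ∏ i ∈ s, M'.x t' i' ^ (Θ i' i * γ i) =
      M'.x t' i' ^ (∑ i ∈ s, Θ i' i * γ i) := by
    intro s
    induction s using Finset.induction_on with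
    | empty => simp
    | insert a s ha ih => rw [Finset.prod_insert ha, Finset.sum_insert ha, zpow_add₀ h2, ih]
  exact h3 _

lemma Fn.ov {L : Type u} [Field L] [Algebra k L] {R0 R R0' R' : Subalgebra k L}
    {T T' I I' G : Type} [Fintype I] [Fintype I'] {M : LM R0 R T I} {M' : LM R0' R' T' I'}
    {π : T' → T} {Θ : I' → I → ℤ} (h : Ov M M' π Θ) {g : G → L} {Γ : G → I → ℤ}
    (hF : Fn M g Γ) : Fn M' g (fun b i' => ∑ i, Θ i' i * Γ b i) := by
  intro b t'
  obtain ⟨w, w0, wA, wA', hw⟩ := hF b (π t')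
  refine ⟨w, w0, h.le t' wA, h.le t' wA', ?_⟩
  rw [hw, prod_ov h]

lemma Frc.ov {L : Type u} [Field L] [Algebra k L] {R0 R R0' R' : Subalgebra k L}
    {T T' I I' : Type} [Fintype I] [Fintype I'] {M : LM R0 R T I} {M' : LM R0' R' T' I'}
    {π : T' → T} {Θ : I' → I → ℤ} (h : Ov M M' π Θ) (hR : Frc M) : Frc M' := by
  intro t' x
  obtain ⟨a, ha, b, hb, h1⟩ := hR (π t') x
  exact ⟨a, h.le t' ha, b, h.le t' hb, h1⟩

/-- Normal form of the sum. -/
theorem gm_sum (hsum : WD_sum.{u}) [Fact p.Prime] {L : Type u} [Field L] [Algebra k L]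
    [CharP L p] {ι G : Type} [Finite ι] [Nonempty ι] {f : ι → L} {g : G → L}
    (h : GM p k f g) (F : L) (hF : ∀ (_ : Fintype ι), F = ∑ j, f j) :
    ∃ (T I : Type) (_ : Finite T) (_ : Fintype I) (M : LM (⊥ : Subalgebra k L) ⊤ T I)
      (n : I → ℤ) (a h : T → L) (Γ : G → I → ℤ), NFH p M F n a h ∧ Fn M g Γ ∧ Frc M := by
  obtain ⟨T, I, hT, hI, M, n, a, h, Γ, hN, hG, hR⟩ := h
  have : Fintype ι := Fintype.ofFinite ι
  obtain ⟨T', I', hT', hI', M', π, Θ, n', a', h', hO, hN'⟩ := hsum p k L ⊥ ⊤ T I ι M f n a h hN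
  rw [hF inferInstance]
  exact ⟨T', I', hT', hI', M', n', a', h', _, hN', hG.ov hO, hR.ov hO⟩

end gm

end Pool.Agent.W558
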