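import Pool.Agent.W558.WD.Asm1

set_option autoImplicit false
set_option linter.unusedVariables false
set_option linter.unusedSectionVars false

universe u

open TensorProduct

namespace Pool.Agent.W558

section disj

variable {k : Type u} [Field k] {A1 A2 E1 E2 L : Type u} [CommRing A1] [IsDomain A1]
  [CommRing A2] [IsDomain A2] [Algebra k A1] [Algebra k A2] [Field E1] [Field E2] [Algebra k E1]
  [Algebra k E2] [Algebra A1 E1] [Algebra A2 E2] [IsScalarTower k A1 E1] [IsScalarTower k A2 E2]
  [IsFractionRing A1 E1] [IsFractionRing A2 E2] [Field L] [Algebra k L]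

/-- Clearing denominators. -/
lemma exists_clear (t : E1 ⊗[k] E2) : ∃ (a1 : A1) (a2 : A2) (s : A1 ⊗[k] A2), a1 ≠ 0 ∧ a2 ≠ 0 ∧
    (algebraMap A1 E1 a1 ⊗ₜ[k] algebraMap A2 E2 a2) * t =
      Algebra.TensorProduct.map (IsScalarTower.toAlgHom k A1 E1) (IsScalarTower.toAlgHom k A2 E2)
        s := by
  induction t using TensorProduct.induction_on with
  | zero => exact ⟨1, 1, 0, one_ne_zero, one_ne_zero, by simp⟩
  | tmul x y =>
    obtain ⟨b1, c1, hc1, rfl⟩ := IsFractionRing.div_surjective (A := A1) x
    obtain ⟨b2, c2, hc2, rfl⟩ := IsFractionRing.div_surjective (A := A2) y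
    have h1 := nonZeroDivisors.ne_zero hc1
    have h2 := nonZeroDivisors.ne_zero hc2
    refine ⟨c1, c2, b1 ⊗ₜ b2, h1, h2, ?_⟩
    have h1' : algebraMap A1 E1 c1 ≠ 0 :=
      (FaithfulSMul.algebraMap_eq_zero_iff A1 E1).not.2 h1
    have h2' : algebraMap A2 E2 c2 ≠ 0 :=
      (FaithfulSMul.algebraMap_eq_zero_iff A2 E2).not.2 h2
    rw [Algebra.TensorProduct.tmul_mul_tmul, Algebra.TensorProduct.map_tmul,
      mul_div_cancel₀ _ h1', mul_div_cancel₀ _ h2']
    rfl
  | add x y hx hy =>
    obtain ⟨a1, a2, s, h1, h2, h3⟩ := hx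
    obtain ⟨b1, b2, r, h4, h5, h6⟩ := hy
    refine ⟨a1 * b1, a2 * b2, (b1 ⊗ₜ b2) * s + (a1 ⊗ₜ a2) * r, mul_ne_zero h1 h4,
      mul_ne_zero h2 h5, ?_⟩
    have e1 : algebraMap A1 E1 (a1 * b1) ⊗ₜ[k] algebraMap A2 E2 (a2 * b2) =
        (algebraMap A1 E1 a1 ⊗ₜ[k] algebraMap A2 E2 a2) *
          (algebraMap A1 E1 b1 ⊗ₜ[k] algebraMap A2 E2 b2) := by
      rw [Algebra.TensorProduct.tmul_mul_tmul, map_mul, map_mul]
    rw [e1, map_add, map_mul (Algebra.TensorProduct.map (IsScalarTower.toAlgHom k A1 E1)
      (IsScalarTower.toAlgHom k A2 E2)), map_mul (Algebra.TensorProduct.map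
      (IsScalarTower.toAlgHom k A1 E1) (IsScalarTower.toAlgHom k A2 E2)), ← h3, ← h6,
      Algebra.TensorProduct.map_tmul, Algebra.TensorProduct.map_tmul]
    simp only [IsScalarTower.coe_toAlgHom']
    ring

/-- Tensor products of fraction fields. -/
theorem productMap_injective (i1 : E1 →ₐ[k] L) (i2 : E2 →ₐ[k] L)
    (h : Function.Injective (Algebra.TensorProduct.productMap
      (i1.comp (IsScalarTower.toAlgHom k A1 E1)) (i2.comp (IsScalarTower.toAlgHom k A2 E2)))) :
    Function.Injective (Algebra.TensorProduct.productMap i1 i2) := by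
  rw [injective_iff_map_eq_zero]
  intro t ht
  obtain ⟨a1, a2, s, h1, h2, h3⟩ := exists_clear (A1 := A1) (A2 := A2) t
  have h4 : Algebra.TensorProduct.productMap (i1.comp (IsScalarTower.toAlgHom k A1 E1))
      (i2.comp (IsScalarTower.toAlgHom k A2 E2)) s =
      Algebra.TensorProduct.productMap i1 i2 (Algebra.TensorProduct.map
        (IsScalarTower.toAlgHom k A1 E1) (IsScalarTower.toAlgHom k A2 E2) s) := by
    have : Algebra.TensorProduct.productMap (i1.comp (IsScalarTower.toAlgHom k A1 E1))
      (i2.comp (IsScalarTower.toAlgHom k A2 E2)) =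
      (Algebra.TensorProduct.productMap i1 i2).comp (Algebra.TensorProduct.map
        (IsScalarTower.toAlgHom k A1 E1) (IsScalarTower.toAlgHom k A2 E2)) := by
      apply Algebra.TensorProduct.ext'
      intro a b
      simp
    rw [this]; rfl
  rw [← h3, map_mul, ht, mul_zero] at h4
  have h5 : s = 0 := (injective_iff_map_eq_zero _).1 h s h4
  rw [h5, map_zero] at h3
  have h1' : algebraMap A1 E1 a1 ≠ 0 := (FaithfulSMul.algebraMap_eq_zero_iff A1 E1).not.2 h1
  have h2' : algebraMap A2 E2 a2 ≠ 0 := (FaithfulSMul.algebraMap_eq_zero_iff A2 E2).not.2 h2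
  have h6 : ((algebraMap A1 E1 a1)⁻¹ ⊗ₜ[k] (algebraMap A2 E2 a2)⁻¹) *
      ((algebraMap A1 E1 a1 ⊗ₜ[k] algebraMap A2 E2 a2) * t) = 0 := by rw [h3, mul_zero]
  rw [← mul_assoc, Algebra.TensorProduct.tmul_mul_tmul, inv_mul_cancel₀ h1',
    inv_mul_cancel₀ h2'] at h6
  rwa [← Algebra.TensorProduct.one_def, one_mul] at h6

end disj

section poly

variable {k : Type u} [Field k] {L : Type u} [Field L] [Algebra k L]

/-- The field `L` is generated over `k` by the algebraically independent elements `v j`. -/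
structure Rat {J : Type} (v : J → L) : Prop where
  ind : AlgebraicIndependent k v
  gen : ∀ x : L, ∃ P Q : MvPolynomial J k, Q ≠ 0 ∧ x * MvPolynomial.aeval v Q =
    MvPolynomial.aeval v P

/-- The rational function field. -/
abbrev RF (k : Type u) [Field k] (J : Type) : Type u := FractionRing (MvPolynomial J k)

/-- Substitution of the algebraically independent elements `v j` in rational functions. -/
noncomputable def rsub {J : Type} {v : J → L} (hv : AlgebraicIndependent k v) : RF k J →ₐ[k] L :=
  IsFractionRing.liftAlgHom (g := MvPolynomial.aeval v) (show Function.Injective _ from hv)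

lemma rsub_algebraMap {J : Type} {v : J → L} (hv : AlgebraicIndependent k v)
    (P : MvPolynomial J k) :
    rsub hv (algebraMap _ _ P) = MvPolynomial.aeval v P := by
  have h1 : Function.Injective (MvPolynomial.aeval (R := k) v) := hv
  exact IsFractionRing.lift_algebraMap (g := (MvPolynomial.aeval (R := k) v).toRingHom) h1 P

lemma rat_RF (J : Type) : Rat (k := k) (fun j : J => algebraMap (MvPolynomial J k) (RF k J)
    (MvPolynomial.X j)) := by
  have h1 : MvPolynomial.aeval (fun j : J => algebraMap (MvPolynomial J k) (RF k J)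
      (MvPolynomial.X j)) = IsScalarTower.toAlgHom k (MvPolynomial J k) (RF k J) := by
    ext; simp
  refine ⟨?_, ?_⟩
  · rw [AlgebraicIndependent, h1]
    exact IsFractionRing.injective (MvPolynomial J k) (RF k J)
  · intro x
    obtain ⟨P, Q, hQ, rfl⟩ := IsFractionRing.div_surjective (A := MvPolynomial J k) x
    have h2 := nonZeroDivisors.ne_zero hQ
    have h3 : algebraMap (MvPolynomial J k) (RF k J) Q ≠ 0 :=
      (FaithfulSMul.algebraMap_eq_zero_iff _ _).not.2 h2
    refine ⟨P, Q, h2, ?_⟩
    rw [h1]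
    change _ * algebraMap (MvPolynomial J k) (RF k J) Q = algebraMap (MvPolynomial J k) (RF k J) P
    rw [div_mul_cancel₀ _ h3]

end poly

section prod

variable {k : Type u} [Field k] {L : Type u} [Field L] [Algebra k L] {J J' : Type}

theorem productMap_injective_of_ind {v : J → L} {w : J' → L}
    (h : AlgebraicIndependent k (Sum.elim v w)) (hv : AlgebraicIndependent k v)
    (hw : AlgebraicIndependent k w) :
    Function.Injective (Algebra.TensorProduct.productMap (rsub hv) (rsub hw)) := by
  refine productMap_injective (A1 := MvPolynomial J k) (A2 := MvPolynomial J' k) _ _ ?_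
  have e1 : (rsub hv).comp (IsScalarTower.toAlgHom k (MvPolynomial J k) (RF k J)) =
      MvPolynomial.aeval v := AlgHom.ext fun P => rsub_algebraMap hv P
  have e2 : (rsub hw).comp (IsScalarTower.toAlgHom k (MvPolynomial J' k) (RF k J')) =
      MvPolynomial.aeval w := AlgHom.ext fun P => rsub_algebraMap hw P
  rw [e1, e2]
  -- the isomorphism with the polynomial ring in the union of the variables
  let φ : (MvPolynomial J k) ⊗[k] (MvPolynomial J' k) →ₐ[k] MvPolynomial (J ⊕ J') k :=
    Algebra.TensorProduct.productMap (MvPolynomial.rename Sum.inl) (MvPolynomial.rename Sum.inr)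
  let ψ : MvPolynomial (J ⊕ J') k →ₐ[k] (MvPolynomial J k) ⊗[k] (MvPolynomial J' k) :=
    MvPolynomial.aeval (Sum.elim (fun j => MvPolynomial.X j ⊗ₜ 1) fun j => 1 ⊗ₜ MvPolynomial.X j)
  have h1 : ψ.comp φ = AlgHom.id k _ := by
    apply Algebra.TensorProduct.ext
    · ext j; simp [φ, ψ]
    · ext j; simp [φ, ψ]
  have h2 : Function.Injective φ := by
    intro x y hxy
    have h3 := congrArg ψ hxy
    rw [← AlgHom.comp_apply, ← AlgHom.comp_apply, h1] at h3
    exact h3
  have h3 : Algebra.TensorProduct.productMap (MvPolynomial.aeval v) (MvPolynomial.aeval w) =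
      (MvPolynomial.aeval (Sum.elim v w)).comp φ := by
    apply Algebra.TensorProduct.ext
    · ext j; simp [φ]
    · ext j; simp [φ]
  rw [h3]
  have h4 : Function.Injective (MvPolynomial.aeval (R := k) (Sum.elim v w)) := h
  exact h4.comp h2

theorem productMap_gen {v : J → L} {w : J' → L}
    (h : Rat (k := k) (Sum.elim v w)) (hv : AlgebraicIndependent k v)
    (hw : AlgebraicIndependent k w) (x : L) :
    ∃ a b : (RF k J) ⊗[k] (RF k J'), b ≠ 0 ∧
      x * Algebra.TensorProduct.productMap (rsub hv) (rsub hw) b =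
        Algebra.TensorProduct.productMap (rsub hv) (rsub hw) a := by
  have key : ∀ P : MvPolynomial (J ⊕ J') k, ∃ a : (RF k J) ⊗[k] (RF k J'),
      Algebra.TensorProduct.productMap (rsub hv) (rsub hw) a =
        MvPolynomial.aeval (Sum.elim v w) P := by
    intro P
    have h1 : (MvPolynomial.aeval (Sum.elim v w) : MvPolynomial (J ⊕ J') k →ₐ[k] L).range ≤
        (Algebra.TensorProduct.productMap (rsub hv) (rsub hw)).range := by
      rw [← Algebra.adjoin_range_eq_range_aeval, Algebra.adjoin_le_iff]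
      rintro _ ⟨j | j, rfl⟩
      · refine ⟨(algebraMap (MvPolynomial J k) (RF k J) (MvPolynomial.X j)) ⊗ₜ 1, ?_⟩
        change Algebra.TensorProduct.productMap (rsub hv) (rsub hw) _ = _
        rw [Algebra.TensorProduct.productMap_apply_tmul, map_one, mul_one, rsub_algebraMap,
          MvPolynomial.aeval_X, Sum.elim_inl]
      · refine ⟨1 ⊗ₜ (algebraMap (MvPolynomial J' k) (RF k J') (MvPolynomial.X j)), ?_⟩
        change Algebra.TensorProduct.productMap (rsub hv) (rsub hw) _ = _
        rw [Algebra.TensorProduct.productMap_apply_tmul, map_one, one_mul, rsub_algebraMap,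
          MvPolynomial.aeval_X, Sum.elim_inr]
    exact h1 ⟨P, rfl⟩
  obtain ⟨P, Q, hQ, h1⟩ := h.gen x
  obtain ⟨a, ha⟩ := key P
  obtain ⟨b, hb⟩ := key Q
  refine ⟨a, b, ?_, by rw [ha, hb, h1]⟩
  rintro rfl
  rw [map_zero] at hb
  exact hQ ((injective_iff_map_eq_zero _).1 h.ind Q hb.symm)

end prod

end Pool.Agent.W558
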