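import Pool.Agent.W558.WD.Asm2

set_option autoImplicit false
set_option linter.unusedVariables false
set_option linter.unusedSectionVars false

universe u

open TensorProduct

namespace Pool.Agent.W558

section rsub

variable {k : Type u} [Field k] {L L' : Type u} [Field L] [Algebra k L] [Field L'] [Algebra k L']
  {J J' : Type}

lemma rsub_X {v : J → L} (hv : AlgebraicIndependent k v) (j : J) :
    rsub hv (algebraMap (MvPolynomial J k) (RF k J) (MvPolynomial.X j)) = v j := by
  rw [rsub_algebraMap, MvPolynomial.aeval_X]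

lemma rsub_unique {v : J → L} (hv : AlgebraicIndependent k v) (ψ : RF k J →ₐ[k] L)
    (h : ∀ j, ψ (algebraMap (MvPolynomial J k) (RF k J) (MvPolynomial.X j)) = v j)
    (x : RF k J) : ψ x = rsub hv x := by
  have h1 : ψ.comp (IsScalarTower.toAlgHom k (MvPolynomial J k) (RF k J)) =
      (rsub hv).comp (IsScalarTower.toAlgHom k (MvPolynomial J k) (RF k J)) := by
    apply MvPolynomial.algHom_ext
    intro j
    change ψ (algebraMap (MvPolynomial J k) (RF k J) (MvPolynomial.X j)) =
      rsub hv (algebraMap (MvPolynomial J k) (RF k J) (MvPolynomial.X j))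
    rw [h, rsub_X]
  obtain ⟨P, Q, hQ, rfl⟩ := IsFractionRing.div_surjective (A := MvPolynomial J k) x
  have h2 : ∀ P : MvPolynomial J k, ψ (algebraMap (MvPolynomial J k) (RF k J) P) =
      rsub hv (algebraMap (MvPolynomial J k) (RF k J) P) :=
    fun P => DFunLike.congr_fun h1 P
  rw [map_div₀, map_div₀, h2, h2]

lemma rsub_rsub {v : J → L} (hv : AlgebraicIndependent k v) (φ : L →ₐ[k] L') {v' : J → L'}
    (hv' : AlgebraicIndependent k v') (h : ∀ j, φ (v j) = v' j) (x : RF k J) :
    φ (rsub hv x) = rsub hv' x := by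
  refine rsub_unique hv' (φ.comp (rsub hv)) ?_ x
  intro j
  rw [AlgHom.comp_apply, rsub_X, h]

lemma Rat.equiv {v : J → L} (hv : Rat (k := k) v) (e : J' ≃ J) : Rat (k := k) (v ∘ e) := by
  refine ⟨hv.ind.comp e e.injective, ?_⟩
  intro x
  obtain ⟨P, Q, hQ, h1⟩ := hv.gen x
  refine ⟨MvPolynomial.rename e.symm P, MvPolynomial.rename e.symm Q, ?_, ?_⟩
  · intro h
    exact hQ (MvPolynomial.rename_injective _ e.symm.injective (h.trans (map_zero _).symm))
  · rw [MvPolynomial.aeval_rename, MvPolynomial.aeval_rename]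
    have : (v ∘ e) ∘ e.symm = v := by
      funext j; simp
    rw [this, h1]

end rsub

section family

variable {p : ℕ} [Fact p.Prime] {k : Type u} [Field k]

/-- The decomposition of the variables. -/
def optEquiv (J : Type) : (J × Fin 2) ⊕ Fin 2 ≃ Option J × Fin 2 where
  toFun := Sum.elim (fun q => (some q.1, q.2)) fun c => (none, c)
  invFun := fun q => match q.1 with
    | some j => Sum.inl (j, q.2)
    | none => Sum.inr q.2
  left_inv := by rintro (⟨j, c⟩ | c) <;> rfl
  right_inv := by rintro ⟨j | j, c⟩ <;> rfl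

/-- The model of the field of rational functions in `2 * m` variables. -/
theorem gm_family (hprod : WD_prod.{u}) (G : Type)
    (hsurf : ∀ (f : RF k (Fin 2)) (c : G → RF k (Fin 2)), (∀ b, c b ≠ 0) →
      GM p k (fun _ : {u : Unit // ¬ ∃ b, b ^ p = f} => f) c)
    (J : Type) [Finite J] : ∀ (L : Type u) [Field L] [Algebra k L] (v : J × Fin 2 → L)
    (hv : Rat (k := k) v) (f : J → RF k (Fin 2)) (c : J → G → RF k (Fin 2)),
    (∀ j b, c j b ≠ 0) →
    GM p k (fun i : {j : J // ¬ ∃ b, b ^ p = f j} =>
      rsub (hv.ind.comp (fun c => (i.1, c)) (Prod.mk_right_injective i.1)) (f i.1))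
      (fun q : J × G =>
      rsub (hv.ind.comp (fun c => (q.1, c)) (Prod.mk_right_injective q.1)) (c q.1 q.2)) := by
  refine Finite.induction_empty_option (P := fun J => ∀ (L : Type u) [Field L] [Algebra k L]
    (v : J × Fin 2 → L) (hv : Rat (k := k) v) (f : J → RF k (Fin 2))
    (c : J → G → RF k (Fin 2)), (∀ j b, c j b ≠ 0) →
    GM p k (fun i : {j : J // ¬ ∃ b, b ^ p = f j} =>
      rsub (hv.ind.comp (fun c => (i.1, c)) (Prod.mk_right_injective i.1)) (f i.1))
      (fun q : J × G =>
      rsub (hv.ind.comp (fun c => (q.1, c)) (Prod.mk_right_injective q.1)) (c q.1 q.2)))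
      ?_ ?_ ?_ J
  · intro J J' e ih L _ _ v hv f c hc
    have h1 := ih L (v ∘ (e.prodCongr (Equiv.refl (Fin 2)))) (hv.equiv _) (f ∘ e) (c ∘ e)
      (fun j b => hc _ _)
    have h2 := h1.reindex (fun i : {j : J' // ¬ ∃ b, b ^ p = f j} =>
      (⟨e.symm i.1, by simpa using i.2⟩ : {j : J // ¬ ∃ b, b ^ p = (f ∘ e) j}))
      (fun i i' h => Subtype.ext (e.symm.injective (congrArg Subtype.val h)))
      (e.symm.prodCongr (Equiv.refl G))
    have h3 : ∀ (j j' : J') (hj : j = j') (w : Fin 2 → L) (hw : AlgebraicIndependent k w)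
        (hw' : ∀ c, w c = v (j, c)) (φ : J' → RF k (Fin 2)), rsub (hv.ind.comp (fun c => (j', c))
          (Prod.mk_right_injective j')) (φ j') = rsub hw (φ j) := by
      rintro j _ rfl w hw hw' φ
      obtain rfl : w = v ∘ fun c => (j, c) := funext hw'
      rfl
    convert h2 using 1
    · funext i
      exact h3 _ i.1 (e.apply_symm_apply i.1) _ _ (fun c => rfl) f
    · funext q
      rcases q with ⟨j, b⟩
      exact h3 _ j (e.apply_symm_apply j) _ _ (fun c => rfl) (fun j => c j b)
  · intro L _ _ v hv f c hc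
    have : IsEmpty (PEmpty × G) := inferInstance
    have : IsEmpty {j : PEmpty // ¬ ∃ b, b ^ p = f j} := inferInstance
    refine gm_point ?_ _ _
    intro x
    obtain ⟨P, Q, hQ, h1⟩ := hv.gen x
    obtain ⟨a, rfl⟩ := MvPolynomial.C_surjective _ P
    obtain ⟨b, rfl⟩ := MvPolynomial.C_surjective _ Q
    have hb : b ≠ 0 := by rintro rfl; exact hQ (map_zero _)
    refine ⟨a / b, ?_⟩
    have hb' : algebraMap k L b ≠ 0 := by
      rw [Ne, FaithfulSMul.algebraMap_eq_zero_iff]; exact hb
    rw [MvPolynomial.aeval_C, MvPolynomial.aeval_C] at h1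
    rw [map_div₀, div_eq_iff hb', h1]
  · intro J _ ih L _ _ v hv f c hc
    let v1 : J × Fin 2 → L := fun q => v (some q.1, q.2)
    let w : Fin 2 → L := fun c => v (none, c)
    have hs : Rat (k := k) (Sum.elim v1 w) := by
      have h1 := hv.equiv (optEquiv J)
      have h2 : v ∘ optEquiv J = Sum.elim v1 w := by
        funext q
        rcases q with q | c <;> rfl
      rwa [h2] at h1
    have hv1 : AlgebraicIndependent k v1 := hs.ind.comp Sum.inl Sum.inl_injective
    have hw : AlgebraicIndependent k w := hs.ind.comp Sum.inr Sum.inr_injective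
    have h1 := ih (RF k (J × Fin 2)) _ (rat_RF (J × Fin 2)) (fun j => f (some j))
      (fun j => c (some j)) (fun j b => hc _ _)
    have h2 := hsurf (f none) (c none) (fun b => hc _ _)
    have h3 := gm_prod hprod (rsub hv1) (rsub hw) (productMap_injective_of_ind hs.ind hv1 hw)
      (productMap_gen hs hv1 hw) h1 h2
    have h4 := h3.reindex (fun i : {j : Option J // ¬ ∃ b, b ^ p = f j} =>
      (match i with
        | ⟨some j, hj⟩ => Sum.inl ⟨j, hj⟩
        | ⟨none, hj⟩ => Sum.inr ⟨(), hj⟩ :
        {j : J // ¬ ∃ b, b ^ p = f (some j)} ⊕ {u : Unit // ¬ ∃ b, b ^ p = f none}))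
      (by
        rintro ⟨_ | j, hj⟩ ⟨_ | j', hj'⟩ h
        · rfl
        · simp at h
        · simp at h
        · simp only [Sum.inl.injEq, Subtype.mk.injEq] at h
          subst h; rfl)
      (fun q : Option J × G => (match q with
        | (some j, b) => Sum.inl (j, b)
        | (none, b) => Sum.inr b : (J × G) ⊕ G))
    have h5 : ∀ (j : J) (x : RF k (Fin 2)), rsub hv1 (rsub ((rat_RF (k := k) (J × Fin 2)).ind.comp
        (fun c => (j, c)) (Prod.mk_right_injective j)) x) =
        rsub (hv.ind.comp (fun c => (some j, c)) (Prod.mk_right_injective (some j))) x := by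
      intro j x
      rw [rsub_rsub]
      intro c
      change rsub hv1 (algebraMap (MvPolynomial (J × Fin 2) k) (RF k (J × Fin 2))
        (MvPolynomial.X (j, c))) = _
      rw [rsub_X]
      rfl
    convert h4 using 1
    · funext i
      rcases i with ⟨_ | j, hj⟩
      · rfl
      · exact (h5 j _).symm
    · funext q
      rcases q with ⟨_ | j, b⟩
      · rfl
      · exact (h5 j _).symm

end family

/-- Products of functions. -/
lemma Fn.prod {k L : Type u} [Field k] [Field L] [Algebra k L] {R0 R : Subalgebra k L}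
    {T I J G : Type} [Fintype I] [Fintype J] {M : LM R0 R T I} {g : J × G → L}
    {Γ : J × G → I → ℤ} (h : Fn M g Γ) :
    Fn M (fun b => ∏ j, g (j, b)) (fun b i => ∑ j, Γ (j, b) i) := by
  intro b t
  choose w w0 wA wA' hw using fun j => h (j, b) t
  refine ⟨∏ j, w j, Finset.prod_ne_zero_iff.2 fun j _ => w0 j, (M.A t).prod_mem fun j _ => wA j,
    ?_, ?_⟩
  · rw [← Finset.prod_inv_distrib]
    exact (M.A t).prod_mem fun j _ => wA' j
  · simp only [hw]
    rw [Finset.prod_mul_distrib, Finset.prod_comm]
    congr 1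
    refine Finset.prod_congr rfl fun i _ => ?_
    have h2 := M.x0 t i
    classical
    have h3 : ∀ s : Finset J, ∏ j ∈ s, M.x t i ^ Γ (j, b) i = M.x t i ^ (∑ j ∈ s, Γ (j, b) i) := by
      intro s
      induction s using Finset.induction_on with
      | empty => simp
      | insert a s ha ih => rw [Finset.prod_insert ha, Finset.sum_insert ha, zpow_add₀ h2, ih]
    exact h3 _

end Pool.Agent.W558
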