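import Pool.Agent.W558.WD.Asm3

set_option autoImplicit false
set_option linter.unusedVariables false
set_option linter.unusedSectionVars false

universe u

open Polynomial

namespace Pool.Agent.W558

section loc

variable {k L K : Type u} [Field k] [Field L] [Field K] [Algebra k L] [Algebra k K] [Algebra L K]
  [IsScalarTower k L K] {F : L[X]} (hF : Prime F) (z : K)
  (hz : ∀ P : L[X], aeval z P = 0 ↔ F ∣ P)

/-- The local ring of the prime `F` in the field of rational functions. -/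
def FQ (hF : Prime F) : Subalgebra k (FractionRing L[X]) where
  carrier := {x | ∃ P P' : L[X], ¬ F ∣ P' ∧ x * algebraMap L[X] _ P' = algebraMap L[X] _ P}
  mul_mem' := by
    rintro x y ⟨P, P', h, hx⟩ ⟨R, R', h', hy⟩
    refine ⟨P * R, P' * R', fun h1 => (hF.dvd_or_dvd h1).elim h h', ?_⟩
    rw [map_mul, map_mul, ← hx, ← hy]; ring
  add_mem' := by
    rintro x y ⟨P, P', h, hx⟩ ⟨R, R', h', hy⟩
    refine ⟨P * R' + R * P', P' * R', fun h1 => (hF.dvd_or_dvd h1).elim h h', ?_⟩
    rw [map_add, map_mul, map_mul, map_mul, ← hx, ← hy]; ring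
  algebraMap_mem' := by
    intro r
    refine ⟨C (algebraMap k L r), 1, fun h => hF.not_isUnit (isUnit_of_dvd_one h), ?_⟩
    rw [map_one, mul_one, IsScalarTower.algebraMap_apply k L[X] (FractionRing L[X])]
    rfl

lemma mem_FQ {x : FractionRing L[X]} : x ∈ FQ (k := k) hF ↔
    ∃ P P' : L[X], ¬ F ∣ P' ∧ x * algebraMap L[X] _ P' = algebraMap L[X] _ P := Iff.rfl

lemma mem_FQ_of {P : L[X]} : algebraMap L[X] (FractionRing L[X]) P ∈ FQ (k := k) hF :=
  ⟨P, 1, fun h => hF.not_isUnit (isUnit_of_dvd_one h), by rw [map_one, mul_one]⟩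

lemma alg_ne_zero {P : L[X]} (hP : P ≠ 0) : algebraMap L[X] (FractionRing L[X]) P ≠ 0 :=
  (FaithfulSMul.algebraMap_eq_zero_iff _ _).not.2 hP

include hF in
lemma ne_zero_of_not_dvd {P : L[X]} (hP : ¬ F ∣ P) : P ≠ 0 := fun h => hP (h ▸ dvd_zero F)

include hz in
/-- The value at the point `z`. -/
lemma exists_val (x : FQ (k := k) hF) : ∃ v : K, ∀ P P' : L[X], ¬ F ∣ P' →
    (x : FractionRing L[X]) * algebraMap L[X] _ P' = algebraMap L[X] _ P →
    v * aeval z P' = aeval z P := by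
  obtain ⟨x, P0, P0', h0, hx⟩ := x
  have h1 : aeval z P0' ≠ 0 := fun h => h0 ((hz _).1 h)
  refine ⟨aeval z P0 / aeval z P0', ?_⟩
  intro P P' h hP
  simp only at hP
  have h2 : P0 * P' = P * P0' := by
    apply IsFractionRing.injective L[X] (FractionRing L[X])
    rw [map_mul, map_mul, ← hx, ← hP]; ring
  have h3 := congrArg (aeval z) h2
  rw [map_mul, map_mul] at h3
  field_simp
  linear_combination h3

/-- The value at the point `z`. -/
noncomputable def valZ (x : FQ (k := k) hF) : K := (exists_val hF z hz x).choose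

lemma valZ_spec (x : FQ (k := k) hF) {P P' : L[X]} (h : ¬ F ∣ P')
    (hx : (x : FractionRing L[X]) * algebraMap L[X] _ P' = algebraMap L[X] _ P) :
    valZ hF z hz x * aeval z P' = aeval z P := (exists_val hF z hz x).choose_spec P P' h hx

lemma valZ_eq (x : FQ (k := k) hF) {P P' : L[X]} (h : ¬ F ∣ P')
    (hx : (x : FractionRing L[X]) * algebraMap L[X] _ P' = algebraMap L[X] _ P) {v : K}
    (hv : v * aeval z P' = aeval z P) : valZ hF z hz x = v := by
  have h1 : aeval z P' ≠ 0 := fun h' => h ((hz _).1 h')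
  exact mul_right_cancel₀ h1 ((valZ_spec hF z hz x h hx).trans hv.symm)

/-- The residue map. -/
noncomputable def piZ : FQ (k := k) hF →ₐ[k] K where
  toFun := valZ hF z hz
  map_one' := valZ_eq hF z hz _ (P := 1) (P' := 1)
    (fun h => hF.not_isUnit (isUnit_of_dvd_one h)) (by simp) (by simp)
  map_mul' := by
    intro x y
    obtain ⟨P, P', h, hx⟩ := x.2
    obtain ⟨R, R', h', hy⟩ := y.2
    refine valZ_eq hF z hz _ (P := P * R) (P' := P' * R')
      (fun h1 => (hF.dvd_or_dvd h1).elim h h') ?_ ?_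
    · rw [map_mul, map_mul, ← hx, ← hy]; push_cast; ring
    · rw [map_mul, map_mul, ← valZ_spec hF z hz x h hx, ← valZ_spec hF z hz y h' hy]; ring
  map_zero' := valZ_eq hF z hz _ (P := 0) (P' := 1)
    (fun h => hF.not_isUnit (isUnit_of_dvd_one h)) (by simp) (by simp)
  map_add' := by
    intro x y
    obtain ⟨P, P', h, hx⟩ := x.2
    obtain ⟨R, R', h', hy⟩ := y.2
    refine valZ_eq hF z hz _ (P := P * R' + R * P') (P' := P' * R')
      (fun h1 => (hF.dvd_or_dvd h1).elim h h') ?_ ?_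
    · rw [map_add, map_mul, map_mul, map_mul, ← hx, ← hy]; push_cast; ring
    · rw [map_add, map_mul, map_mul, map_mul, ← valZ_spec hF z hz x h hx,
        ← valZ_spec hF z hz y h' hy]; ring
  commutes' := by
    intro r
    refine valZ_eq hF z hz _ (P := C (algebraMap k L r)) (P' := 1)
      (fun h => hF.not_isUnit (isUnit_of_dvd_one h)) ?_ ?_
    · rw [map_one, mul_one]
      change algebraMap k (FractionRing L[X]) r = _
      rw [IsScalarTower.algebraMap_apply k L[X] (FractionRing L[X])]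
      rfl
    · rw [map_one, mul_one, aeval_C, ← IsScalarTower.algebraMap_apply]

lemma piZ_alg (P : L[X]) : piZ (k := k) hF z hz ⟨_, mem_FQ_of hF (P := P)⟩ = aeval z P :=
  valZ_eq hF z hz _ (P := P) (P' := 1)
    (fun h => hF.not_isUnit (isUnit_of_dvd_one h)) (by simp) (by simp)

lemma piZ_eq_zero (q : FQ (k := k) hF) : piZ hF z hz q = 0 ↔
    ∃ r ∈ FQ (k := k) hF, (q : FractionRing L[X]) = algebraMap L[X] _ F * r := by
  constructor
  · intro h
    obtain ⟨P, P', h', hx⟩ := q.2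
    have h1 : valZ hF z hz q * aeval z P' = aeval z P := valZ_spec hF z hz q h' hx
    have h2 : valZ hF z hz q = 0 := h
    rw [h2, zero_mul] at h1
    obtain ⟨R, hR⟩ := (hz P).1 h1.symm
    have h3 := alg_ne_zero (ne_zero_of_not_dvd hF h')
    refine ⟨algebraMap L[X] _ R / algebraMap L[X] _ P', ⟨R, P', h', div_mul_cancel₀ _ h3⟩, ?_⟩
    rw [mul_div_assoc', eq_div_iff h3, hx, hR, map_mul]
  · rintro ⟨r, hr, h⟩
    have h1 : q = ⟨_, mem_FQ_of hF (P := F)⟩ * (⟨r, hr⟩ : FQ (k := k) hF) := Subtype.ext h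
    rw [h1, map_mul, piZ_alg, (hz F).2 dvd_rfl, zero_mul]

lemma piZ_surj (hgen : ∀ w : K, ∃ P : L[X], aeval z P = w) :
    Function.Surjective (piZ (k := k) hF z hz) := by
  intro w
  obtain ⟨P, rfl⟩ := hgen w
  exact ⟨_, piZ_alg hF z hz P⟩

lemma FQ_total (x : FractionRing L[X]) : x ∈ FQ (k := k) hF ∨ x⁻¹ ∈ FQ (k := k) hF := by
  by_cases h0 : x = 0
  · left; rw [h0]; exact (FQ hF).zero_mem
  obtain ⟨P, R, hR, hx⟩ := IsFractionRing.div_surjective (A := L[X]) x
  have hR0 := nonZeroDivisors.ne_zero hR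
  have hR1 := alg_ne_zero hR0
  have hP0 : P ≠ 0 := by
    rintro rfl
    rw [map_zero, zero_div] at hx
    exact h0 hx.symm
  obtain ⟨P', hP1, hP2⟩ := (FiniteMultiplicity.of_prime_left hF hP0).exists_eq_pow_mul_and_not_dvd
  obtain ⟨R', hR2, hR3⟩ := (FiniteMultiplicity.of_prime_left hF hR0).exists_eq_pow_mul_and_not_dvd
  set n := multiplicity F P
  set m := multiplicity F R
  have hF1 := alg_ne_zero hF.ne_zero
  have hP3 := alg_ne_zero (ne_zero_of_not_dvd hF hP2)
  have hR4 := alg_ne_zero (ne_zero_of_not_dvd hF hR3)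
  have e : x * (algebraMap L[X] (FractionRing L[X]) F ^ m * algebraMap L[X] _ R') =
      algebraMap L[X] _ F ^ n * algebraMap L[X] _ P' := by
    rw [← hx, ← map_pow, ← map_pow, ← map_mul, ← map_mul, ← hP1, ← hR2, div_mul_cancel₀ _ hR1]
  rcases le_total m n with h | h
  · left
    obtain ⟨e', he⟩ := Nat.exists_eq_add_of_le h
    refine ⟨F ^ e' * P', R', hR3, ?_⟩
    apply mul_left_cancel₀ (pow_ne_zero m hF1)
    rw [he, pow_add] at e
    rw [map_mul, map_pow]
    linear_combination e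
  · right
    obtain ⟨e', he⟩ := Nat.exists_eq_add_of_le h
    refine ⟨F ^ e' * R', P', hP2, ?_⟩
    have h2 : x * (algebraMap L[X] (FractionRing L[X]) F ^ e' * algebraMap L[X] _ R') =
        algebraMap L[X] _ P' := by
      apply mul_left_cancel₀ (pow_ne_zero n hF1)
      rw [he, pow_add] at e
      linear_combination e
    rw [← h2, map_mul, map_pow, inv_mul_cancel_left₀ h0]

end loc

section main

/-- Models of the purely inseparable extension. -/
theorem exists_LM_root (hbun : WD_bun.{u}) (hppr : WD_ppr.{u}) (hpcut : WD_pcut.{u}) (p : ℕ)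
    [Fact p.Prime] (k L K : Type u) [Field k] [PerfectField k] [CharP k p] [Field L] [Field K]
    [Algebra k L] [Algebra k K] [Algebra L K] [IsScalarTower k L K] {T I G : Type} [Finite T]
    [Fintype I] (M : LM (⊥ : Subalgebra k L) ⊤ T I) (f : L) (n : I → ℤ) (a h : T → L)
    (g : G → L) (Γ : G → I → ℤ) (hN : NFH p M f n a h) (hR : Frc M) (hG : Fn M g Γ)
    (hf : ∀ b : L, b ^ p ≠ f) (z : K) (hz : z ^ p = algebraMap L K f)
    (hgen : ∀ w : K, ∃ P : L[X], aeval z P = w) :
    ∃ (T' I' : Type) (_ : Finite T') (_ : Fintype I') (M' : LM (⊥ : Subalgebra k K) ⊤ T' I')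
      (Γ' : G → I' → ℤ), Fn M' (fun b => algebraMap L K (g b)) Γ' ∧ Frc M' := by
  have hp : p.Prime := Fact.out
  have hirr : Irreducible (X ^ p - C f : L[X]) := X_pow_sub_C_irreducible_of_prime hp hf
  have hF : Prime (X ^ p - C f : L[X]) := hirr.prime
  have hz0 : aeval z (X ^ p - C f : L[X]) = 0 := by
    rw [map_sub, map_pow, aeval_X, aeval_C, hz, sub_self]
  have hz' : ∀ P : L[X], aeval z P = 0 ↔ (X ^ p - C f : L[X]) ∣ P := by
    intro P
    have h1 : minpoly L z = X ^ p - C f :=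
      (minpoly.eq_of_irreducible_of_monic hirr hz0 (monic_X_pow_sub_C f hp.ne_zero)).symm
    rw [← h1]
    exact (minpoly.dvd_iff).symm
  let N := FractionRing L[X]
  let Z : N := algebraMap L[X] N X
  have hZ : ∀ P : L[X], aeval Z P = algebraMap L[X] N P := by
    intro P
    have h1 : aeval Z = IsScalarTower.toAlgHom L L[X] N := by
      ext; simp [Z]
    rw [h1]; rfl
  have htr : Transcendental L Z := by
    rw [transcendental_iff]
    intro P hP
    rw [hZ] at hP
    exact (FaithfulSMul.algebraMap_eq_zero_iff L[X] N).1 hP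
  have hfr : ∀ x : N, ∃ P P' : L[X], P' ≠ 0 ∧ x * aeval Z P' = aeval Z P := by
    intro x
    obtain ⟨P, P', hP, rfl⟩ := IsFractionRing.div_surjective (A := L[X]) x
    have h0 := nonZeroDivisors.ne_zero hP
    refine ⟨P, P', h0, ?_⟩
    rw [hZ, hZ, div_mul_cancel₀ _ (alg_ne_zero h0)]
  have hQ : IsQ p Z f (FQ (k := k) hF) := by
    intro x
    simp only [hZ]
    exact mem_FQ hF
  obtain ⟨T1, I1, hT1, hI1, M1, y1, h1, c1, μ1, Γ1, hP1, hL1, hF1⟩ :=
    hbun p k L N T I G M f n a h g Γ hN hR hG hf Z htr hfr (FQ (k := k) hF) hQ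
  obtain ⟨T2, I2, hT2, hI2, M2, y2, h2, c2, μ2, Γ2, hP2, hL2, hF2, hfin⟩ :=
    hppr p k N T1 I1 G M1 _ (FQ (k := k) hF) y1 h1 c1 μ1 (fun b => algebraMap L N (g b)) Γ1
      hP1 hL1 hF1
  have eF : Z ^ p - algebraMap L N f = algebraMap L[X] N (X ^ p - C f) := by
    rw [← hZ, map_sub, map_pow, aeval_X, aeval_C]
  rw [eF] at hP2
  refine hpcut p k N K T2 I2 G M2 _ (FQ (k := k) hF) y2 h2 c2 μ2 (fun b => algebraMap L N (g b))
    Γ2 hP2 hL2 hF2 hfin (mem_FQ_of hF) (alg_ne_zero hF.ne_zero) (piZ hF z hz')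
    (piZ_eq_zero hF z hz') (piZ_surj hF z hz' hgen) (FQ_total hF)
    (fun b => algebraMap L K (g b)) ?_
  intro b hb
  have h1 : algebraMap L N (g b) = algebraMap L[X] N (C (g b)) := by
    rw [← hZ, aeval_C]
  have h2 : (⟨algebraMap L N (g b), hb⟩ : FQ (k := k) hF) =
      ⟨algebraMap L[X] N (C (g b)), mem_FQ_of hF⟩ := Subtype.ext h1
  rw [h2, piZ_alg, aeval_C]

end main

end Pool.Agent.W558
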