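import Pool.Agent.W558.WD.Asm4
import Pool.Agent.W558.WD.Plane
import Pool.Agent.W558.WD.All
import Pool.Agent.W558.Var

set_option autoImplicit false
set_option linter.unusedVariables false
set_option linter.unusedSectionVars false

universe u

open Polynomial AlgebraicGeometry CategoryTheory

namespace Pool.Agent.W558

section surf

/-- Giraud's theorem for the projective plane. -/
theorem gm_plane (p : ℕ) [Fact p.Prime] (k : Type u) [Field k] [PerfectField k] [CharP k p]
    (G : Type) [Finite G] (f : RF k (Fin 2)) (c : G → RF k (Fin 2)) (hc : ∀ b, c b ≠ 0) :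
    GM p k (fun _ : {u : Unit // ¬ ∃ b, b ^ p = f} => f) c := by
  have h2 := trdeg_RF2 k
  obtain ⟨s⟩ := all_init k (RF k (Fin 2)) (hasModel_RF2 k)
  by_cases hf : ∃ b, b ^ p = f
  · obtain ⟨s', Γ, hF⟩ := all_log k (RF k (Fin 2)) h2 s G c hc
    have : IsEmpty {u : Unit // ¬ ∃ b, b ^ p = f} := ⟨fun i => i.2 hf⟩
    refine ⟨s'.T, s'.I, s'.finT, s'.finI, s'.M, fun j => isEmptyElim j, fun _ j => isEmptyElim j,
      fun _ j => isEmptyElim j, Γ, ⟨fun _ j => isEmptyElim j, fun _ j => isEmptyElim j,
      fun _ κ _ _ φ j => isEmptyElim j⟩, hF, fun t => (s'.sf t).fr⟩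
  · have hD : ∃ D : Derivation k (RF k (Fin 2)) (RF k (Fin 2)), D f ≠ 0 := by
      by_contra hcon
      push Not at hcon
      have : Algebra.EssFiniteType k (RF k (Fin 2)) :=
        Algebra.EssFiniteType.comp k (MvPolynomial (Fin 2) k) (RF k (Fin 2))
      exact hf (wd_ker p k (RF k (Fin 2)) f hcon)
    obtain ⟨s', Γ, hF, hCO⟩ := wd_gin k (RF k (Fin 2)) h2 s G c hc f hD
    obtain ⟨s'', Γ', hF', hCO', hgd⟩ := wd_gir0 k (RF k (Fin 2)) h2 s' G c Γ hF f hD hCO
    obtain ⟨T, I, hT, hI, M, Γ'', n, a, h, hFn, hN, hR⟩ :=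
      wd_loc p k (RF k (Fin 2)) h2 s'' G c Γ' hF' f hCO' hgd
    refine ⟨T, I, hT, hI, M, fun _ => n, fun t _ => a t, fun t _ => h t, Γ'',
      ⟨fun t _ => hN.hA t, fun t _ => hN.eq t, ?_⟩, hFn, hR⟩
    intro t κ _ _ φ j
    obtain ⟨v, hv⟩ := hN.ln t κ φ
    exact ⟨v, hv, fun l hl => absurd (Subsingleton.elim l j) hl⟩

end surf

section main

variable (p : ℕ) [Fact p.Prime] (k K : Type u) [Field k] [PerfectField k] [CharP k p] [Field K]
  [Algebra k K] (m : ℕ) (x : Fin m → Fin 2 → K) (P Q : Fin m → MvPolynomial (Fin 2) k) (z : K)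

/-- Models of the purely inseparable extensions of degree `p` of the field of rational functions in
`2 * m` variables generated by the `p`-th root of a sum of functions of two variables each. -/
theorem wild_model (hx : AlgebraicIndependent k (fun q : Fin m × Fin 2 => x q.1 q.2))
    (hQ : ∀ i, Q i ≠ 0)
    (hz : z ^ p = ∑ i, MvPolynomial.aeval (x i) (P i) / MvPolynomial.aeval (x i) (Q i))
    (hzx : z ∉ IntermediateField.adjoin k (Set.range fun q : Fin m × Fin 2 => x q.1 q.2))
    (hgen : IntermediateField.adjoin k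
      (insert z (Set.range fun q : Fin m × Fin 2 => x q.1 q.2)) = ⊤)
    (G : Type) [Finite G] (s : G → K) (R S : G → Fin m → MvPolynomial (Fin 2) k)
    (hR : ∀ b i, R b i ≠ 0) (hS : ∀ b i, S b i ≠ 0)
    (hs : ∀ b, s b = ∏ i, MvPolynomial.aeval (x i) (R b i) / MvPolynomial.aeval (x i) (S b i)) :
    ∃ (T I : Type) (_ : Finite T) (_ : Fintype I) (M : LM (⊥ : Subalgebra k K) ⊤ T I)
      (Γ : G → I → ℤ), Fn M s Γ ∧ Frc M := by
  have hp : p.Prime := Fact.out
  let L := RF k (Fin m × Fin 2)
  let E := RF k (Fin 2)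
  let _ : Algebra L K := (rsub hx).toRingHom.toAlgebra
  have tL : IsScalarTower k L K := IsScalarTower.of_algebraMap_eq fun c =>
    ((rsub hx).commutes c).symm
  have hcK : CharP K p := charP_of_injective_algebraMap (algebraMap k K).injective p
  have hcL : CharP L p := charP_of_injective_algebraMap (algebraMap k L).injective p
  let v : Fin m × Fin 2 → L := fun q => algebraMap (MvPolynomial (Fin m × Fin 2) k) L
    (MvPolynomial.X q)
  have hv : Rat (k := k) v := rat_RF _
  have hvi : ∀ i, AlgebraicIndependent k (fun c => v (i, c)) := fun i =>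
    hv.ind.comp (fun c => (i, c)) (Prod.mk_right_injective i)
  have hLK : ∀ y : L, algebraMap L K y = rsub hx y := fun y => rfl
  have hval : ∀ (i : Fin m) (A : MvPolynomial (Fin 2) k),
      algebraMap L K (rsub (hvi i) (algebraMap (MvPolynomial (Fin 2) k) E A)) =
        MvPolynomial.aeval (x i) A := by
    intro i A
    have hxi : AlgebraicIndependent k (fun c => x i c) :=
      hx.comp (fun c => (i, c)) (Prod.mk_right_injective i)
    rw [hLK, rsub_rsub (hvi i) (rsub hx) hxi (fun c => rsub_X hx (i, c)), rsub_algebraMap]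
  let f : Fin m → E := fun i => algebraMap (MvPolynomial (Fin 2) k) E (P i) /
    algebraMap (MvPolynomial (Fin 2) k) E (Q i)
  let c : Fin m → G → E := fun i b => algebraMap (MvPolynomial (Fin 2) k) E (R b i) /
    algebraMap (MvPolynomial (Fin 2) k) E (S b i)
  have hne : ∀ A : MvPolynomial (Fin 2) k, A ≠ 0 →
      algebraMap (MvPolynomial (Fin 2) k) E A ≠ 0 := fun A hA =>
    (FaithfulSMul.algebraMap_eq_zero_iff _ _).not.2 hA
  have hc : ∀ i b, c i b ≠ 0 := fun i b => div_ne_zero (hne _ (hR b i)) (hne _ (hS b i))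
  have hGM := gm_family (p := p) wd_prod G (fun f c hc => gm_plane p k G f c hc) (Fin m) L v hv
    f c hc
  classical
  -- the sum of the functions
  let fL : L := ∑ i, rsub (hvi i) (f i)
  have hfK : algebraMap L K fL = z ^ p := by
    rw [hz, map_sum]
    refine Finset.sum_congr rfl fun i _ => ?_
    rw [map_div₀, map_div₀, hval, hval]
  have hnp : ∀ b : L, b ^ p ≠ fL := by
    intro b hb
    have h1 : (algebraMap L K b) ^ p = z ^ p := by rw [← map_pow, hb, hfK]
    have h2 : algebraMap L K b = z := by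
      have h3 : (algebraMap L K b - z) ^ p = 0 := by rw [sub_pow_char, h1, sub_self]
      exact sub_eq_zero.1 (pow_eq_zero_iff hp.ne_zero |>.1 h3)
    apply hzx
    rw [← h2, hLK]
    obtain ⟨A, B, hB, h4⟩ := hv.gen b
    have h5 : ∀ A : MvPolynomial (Fin m × Fin 2) k,
        rsub hx (MvPolynomial.aeval v A) ∈ IntermediateField.adjoin k
          (Set.range fun q : Fin m × Fin 2 => x q.1 q.2) := by
      intro A
      have h6 : rsub hx (MvPolynomial.aeval v A) =
          MvPolynomial.aeval (fun q : Fin m × Fin 2 => x q.1 q.2) A := by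
        rw [← AlgHom.comp_apply, MvPolynomial.comp_aeval]
        congr 2
        funext q
        exact rsub_X hx q
      rw [h6]
      apply IntermediateField.algebra_adjoin_le_adjoin
      rw [Algebra.adjoin_range_eq_range_aeval]
      exact ⟨A, rfl⟩
    have hB0 : MvPolynomial.aeval v B ≠ 0 := fun h =>
      hB ((injective_iff_map_eq_zero _).1 hv.ind B h)
    have h7 : b = MvPolynomial.aeval v A / MvPolynomial.aeval v B := (eq_div_iff hB0).2 h4
    rw [h7, map_div₀]
    exact IntermediateField.div_mem _ (h5 A) (h5 B)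
  -- the functions which are not p-th powers
  let ι := {i : Fin m // ¬ ∃ b, b ^ p = f i}
  have hroot : ∀ i : Fin m, ∃ b : L, i ∉ Set.range (Subtype.val : ι → Fin m) →
      b ^ p = rsub (hvi i) (f i) := by
    intro i
    by_cases hi : ∃ b, b ^ p = f i
    · obtain ⟨b, hb⟩ := hi
      exact ⟨rsub (hvi i) b, fun _ => by rw [← map_pow, hb]⟩
    · exact ⟨0, fun h => absurd ⟨⟨i, hi⟩, rfl⟩ h⟩
  choose r hr using hroot
  let g : L := ∑ i : ι, rsub (hvi i.1) (f i.1)
  let a0 : L := ∑ i : Fin m, if i ∈ Set.range (Subtype.val : ι → Fin m) then 0 else r i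
  have hsplit : fL = g + a0 ^ p := by
    have h1 : g = ∑ i : Fin m, if i ∈ Set.range (Subtype.val : ι → Fin m) then
        rsub (hvi i) (f i) else 0 := by
      have h2 : g = ∑ i ∈ (Finset.univ : Finset ι).map (Function.Embedding.subtype _),
          rsub (hvi i) (f i) := by
        rw [Finset.sum_map]; rfl
      rw [h2, ← Finset.sum_filter]
      refine Finset.sum_congr ?_ fun _ _ => rfl
      ext i
      simp [ι]
    have h3 : a0 ^ p = ∑ i : Fin m, if i ∈ Set.range (Subtype.val : ι → Fin m) then 0 else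
        rsub (hvi i) (f i) := by
      change (∑ i : Fin m, if i ∈ Set.range (Subtype.val : ι → Fin m) then 0 else r i) ^ p = _
      rw [sum_pow_char]
      refine Finset.sum_congr rfl fun i _ => ?_
      split_ifs with h
      · exact zero_pow hp.ne_zero
      · exact hr i h
    rw [h1, h3, ← Finset.sum_add_distrib]
    refine Finset.sum_congr rfl fun i _ => ?_
    split_ifs
    · rw [add_zero]
    · rw [zero_add]
  have hgnp : ∀ b : L, b ^ p ≠ g := by
    intro b hb
    apply hnp (b + a0)
    rw [add_pow_char, hb, hsplit]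
  have hιne : Nonempty ι := by
    by_contra hcon
    rw [not_nonempty_iff] at hcon
    apply hgnp 0
    rw [zero_pow hp.ne_zero]
    exact (Fintype.sum_empty _).symm
  have hg : ∀ h0 : Fintype ι, g = Finset.sum (@Finset.univ ι h0)
      (fun i => rsub (hvi i.1) (f i.1)) := by
    intro h0
    exact Finset.sum_congr (by ext i; simp only [Finset.mem_univ]) fun _ _ => rfl
  obtain ⟨T1, I1, hT1, hI1, M1, n1, a1, h1, Γ1, hN1, hF1, hR1⟩ :=
    gm_sum wd_sum (ι := ι) hGM g (fun h0 => hg h0)
  have hF1' := hF1.prod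
  -- the root
  let w : K := z - algebraMap L K a0
  have hw : w ^ p = algebraMap L K g := by
    change (z - algebraMap L K a0) ^ p = _
    rw [sub_pow_char, ← hfK, hsplit, map_add, map_pow]
    ring
  have hwgen : ∀ y : K, ∃ A : L[X], aeval w A = y := by
    have hint : IsIntegral L w := by
      refine ⟨X ^ p - C g, monic_X_pow_sub_C g hp.ne_zero, ?_⟩
      rw [← aeval_def, map_sub, map_pow, aeval_X, aeval_C, hw, sub_self]
    have htop : IntermediateField.adjoin L {w} = ⊤ := by
      rw [eq_top_iff]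
      intro y _
      have hy : y ∈ IntermediateField.adjoin k
        (insert z (Set.range fun q : Fin m × Fin 2 => x q.1 q.2)) := by
        rw [hgen]; trivial
      have hle : IntermediateField.adjoin k
        (insert z (Set.range fun q : Fin m × Fin 2 => x q.1 q.2)) ≤
          (IntermediateField.adjoin L {w}).restrictScalars k := by
        rw [IntermediateField.adjoin_le_iff]
        rintro y (hyz | ⟨q, rfl⟩)
        · rw [hyz]
          change z ∈ IntermediateField.adjoin L {w}
          have e1 : z = w + algebraMap L K a0 := by simp [w]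
          rw [e1]
          exact IntermediateField.add_mem _ (IntermediateField.mem_adjoin_simple_self L w)
            (IntermediateField.algebraMap_mem _ _)
        · change x q.1 q.2 ∈ IntermediateField.adjoin L {w}
          have e1 : x q.1 q.2 = algebraMap L K (v q) := (rsub_X hx q).symm
          rw [e1]
          exact IntermediateField.algebraMap_mem _ _
      exact hle hy
    intro y
    have h8 : y ∈ Algebra.adjoin L {w} := by
      have h9 : y ∈ (IntermediateField.adjoin L {w}).toSubalgebra := by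
        rw [htop]; trivial
      rwa [IntermediateField.adjoin_simple_toSubalgebra_of_isAlgebraic hint.isAlgebraic] at h9
    rw [Algebra.adjoin_singleton_eq_range_aeval] at h8
    exact h8
  obtain ⟨T', I', hT', hI', M', Γ', hF', hR'⟩ := exists_LM_root wd_bun wd_ppr wd_pcut p k L K M1 g
    n1 a1 h1 _ _ hN1 hR1 hF1' hgnp w hw hwgen
  refine ⟨T', I', hT', hI', M', Γ', ?_, hR'⟩
  have e : (fun b => algebraMap L K (∏ j, rsub (hvi j) (c j b))) = s := by
    funext b
    rw [hs, map_prod]
    refine Finset.prod_congr rfl fun i _ => ?_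
    rw [map_div₀, map_div₀, hval, hval]
  rw [← e]
  exact hF'

/-- Smooth charts over purely inseparable covers of degree `p`. -/
theorem wild_LM (hx : AlgebraicIndependent k (fun q : Fin m × Fin 2 => x q.1 q.2))
    (hQ : ∀ i, Q i ≠ 0)
    (hz : z ^ p = ∑ i, MvPolynomial.aeval (x i) (P i) / MvPolynomial.aeval (x i) (Q i))
    (hzx : z ∉ IntermediateField.adjoin k (Set.range fun q : Fin m × Fin 2 => x q.1 q.2))
    (hgen : IntermediateField.adjoin k
      (insert z (Set.range fun q : Fin m × Fin 2 => x q.1 q.2)) = ⊤)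
    (A : Type u) [CommRing A] [IsDomain A] [Algebra k A] [Algebra.FiniteType k A] [Algebra A K]
    [IsScalarTower k A K] [IsFractionRing A K] (S : Finset A)
    (hS : ∀ a ∈ S, ∃ F H : Fin m → MvPolynomial (Fin 2) k, (∀ i, F i ≠ 0 ∧ H i ≠ 0) ∧
      algebraMap A K a = ∏ i, MvPolynomial.aeval (x i) (F i) / MvPolynomial.aeval (x i) (H i))
    (hA : ∀ a : A, IsIntegral (Algebra.adjoin k (S : Set A)) a) :
    ∃ (T I : Type) (_ : Finite T) (_ : Fintype I),
      Nonempty (LM (IsScalarTower.toAlgHom k A K).range (IsScalarTower.toAlgHom k A K).range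
        T I) := by
  classical
  let ρ : A →ₐ[k] K := IsScalarTower.toAlgHom k A K
  have hρ : Function.Injective ρ := IsFractionRing.injective A K
  obtain ⟨e⟩ : Nonempty ({a // a ∈ S} ≃ Fin S.card) := ⟨S.equivFin⟩
  choose F H hFH hFH' using fun b : Fin S.card => hS (e.symm b).1 (e.symm b).2
  obtain ⟨T, I, hT, hI, M, Γ, hFn, hR⟩ := wild_model p k K m x P Q z hx hQ hz hzx hgen
    (Fin S.card) (fun b => ρ (e.symm b).1) F H (fun b i => (hFH b i).1) (fun b i => (hFH b i).2)
    (fun b => hFH' b)
  have hfg : ρ.range.FG := by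
    have h1 : (⊤ : Subalgebra k A).FG := Algebra.FiniteType.out
    have h2 := h1.map ρ
    rwa [Algebra.map_top] at h2
  have hint : ∀ y ∈ ρ.range, IsIntegral (Algebra.adjoin k
      (Set.range fun b : Fin S.card => ρ (e.symm b).1)) y := by
    rintro _ ⟨a, rfl⟩
    have h1 : Algebra.adjoin k (Set.range fun b : Fin S.card => ρ (e.symm b).1) =
        (Algebra.adjoin k (S : Set A)).map ρ := by
      rw [AlgHom.map_adjoin]
      congr 1
      ext y
      constructor
      · rintro ⟨b, rfl⟩
        exact ⟨_, (e.symm b).2, rfl⟩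
      · rintro ⟨a, ha, rfl⟩
        exact ⟨e ⟨a, ha⟩, by simp⟩
    rw [h1]
    obtain ⟨B, hB, hB'⟩ := hA a
    let φ : Algebra.adjoin k (S : Set A) →+* (Algebra.adjoin k (S : Set A)).map ρ :=
      { toFun := fun y => ⟨ρ y, ⟨y, y.2, rfl⟩⟩
        map_one' := Subtype.ext (map_one ρ)
        map_mul' := fun y y' => Subtype.ext (map_mul ρ _ _)
        map_zero' := Subtype.ext (map_zero ρ)
        map_add' := fun y y' => Subtype.ext (map_add ρ _ _) }
    refine ⟨B.map φ, hB.map φ, ?_⟩
    rw [eval₂_map]
    have h2 : ((algebraMap ((Algebra.adjoin k (S : Set A)).map ρ) K).comp φ) =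
        ρ.toRingHom.comp (algebraMap (Algebra.adjoin k (S : Set A)) A) := RingHom.ext fun y => rfl
    rw [h2]
    have h3 := congrArg ρ.toRingHom hB'
    rw [hom_eval₂, map_zero] at h3
    exact h3
  have hfr : ∀ y : K, ∃ a ∈ ρ.range, ∃ b ∈ ρ.range, b ≠ 0 ∧ y = a * b⁻¹ := by
    intro y
    obtain ⟨a, b, hb, rfl⟩ := IsFractionRing.div_surjective (A := A) y
    exact ⟨_, ⟨a, rfl⟩, _, ⟨b, rfl⟩, by
      have := nonZeroDivisors.ne_zero hb
      exact (FaithfulSMul.algebraMap_eq_zero_iff A K).not.2 this, div_eq_mul_inv _ _⟩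
  obtain ⟨T', I', hT', hI', M', -⟩ := wd_res k K T I (Fin S.card) M
    (fun b => ρ (e.symm b).1) Γ hFn hR ρ.range hfg (fun b => ⟨_, rfl⟩) hint hfr
  exact ⟨T', I', hT', hI', ⟨M'⟩⟩

/-- Resolution of purely inseparable covers of degree `p`. -/
theorem wild_resolution (hx : AlgebraicIndependent k (fun q : Fin m × Fin 2 => x q.1 q.2))
    (hQ : ∀ i, Q i ≠ 0)
    (hz : z ^ p = ∑ i, MvPolynomial.aeval (x i) (P i) / MvPolynomial.aeval (x i) (Q i))
    (hzx : z ∉ IntermediateField.adjoin k (Set.range fun q : Fin m × Fin 2 => x q.1 q.2))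
    (hgen : IntermediateField.adjoin k
      (insert z (Set.range fun q : Fin m × Fin 2 => x q.1 q.2)) = ⊤)
    (A : Type u) [CommRing A] [IsDomain A] [Algebra k A] [Algebra.FiniteType k A] [Algebra A K]
    [IsScalarTower k A K] [IsFractionRing A K] (S : Finset A)
    (hS : ∀ a ∈ S, ∃ F H : Fin m → MvPolynomial (Fin 2) k, (∀ i, F i ≠ 0 ∧ H i ≠ 0) ∧
      algebraMap A K a = ∏ i, MvPolynomial.aeval (x i) (F i) / MvPolynomial.aeval (x i) (H i))
    (hA : ∀ a : A, IsIntegral (Algebra.adjoin k (S : Set A)) a) :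
    IsResolvableVariety (X := Spec (CommRingCat.of A))
      (Spec.map (CommRingCat.ofHom (algebraMap k A))) := by
  apply isResolvableVariety_spec
  obtain ⟨T, I, hT, hI, ⟨M⟩⟩ := wild_LM p k K m x P Q z hx hQ hz hzx hgen A S hS hA
  exact hasResolution_of_LM _ (IsFractionRing.injective A K) M

end main

end Pool.Agent.W558
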