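import Pool.Agent.W558.S.Stms
import Pool.Agent.W558.S2.Stms3

set_option autoImplicit false
set_option linter.unusedVariables false
set_option linter.unusedSectionVars false

universe u

open Polynomial AlgebraicGeometry CategoryTheory Pool.Agent.H920R2

namespace Pool.Agent.W558

section lt

variable {k K : Type u} [Field k] [Field K] [Algebra k K]

/-- A logarithmic tangent vector at the point `φ`: a tangent vector `D` with values `e i` of
`dx i / x i`. -/
structure LT {A : Subalgebra k K} {κ : Type u} [Field κ] [Algebra k κ] (φ : A →ₐ[k] κ)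
    {I : Type} (x : I → K) where
  D : TV φ
  e : I → κ
  hx : ∀ i (h : x i ∈ A), D.D ⟨x i, h⟩ = φ ⟨x i, h⟩ * e i

/-- The value of the logarithmic form `d (x ^ n * h) / x ^ n`. -/
def om {A : Subalgebra k K} {κ : Type u} [Field κ] [Algebra k κ] {φ : A →ₐ[k] κ}
    {I : Type} [Fintype I] {x : I → K} (v : LT φ x) (n : I → ℤ) {h : K} (hh : h ∈ A) : κ :=
  v.D.D ⟨h, hh⟩ + φ ⟨h, hh⟩ * ∑ i, (n i : κ) * v.e i

end lt

section nf

variable {k K : Type u} [Field k] [Field K] [Algebra k K] {R0 R R0' R' : Subalgebra k K}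
    {T T' I I' : Type}

/-- The model `M'` is a logarithmic modification of the model `M`: the charts of `M'` lie over
charts of `M`, the local equations of `M` are monomials in those of `M'`, and logarithmic tangent
vectors can be lifted. -/
structure Ov [Fintype I] [Fintype I'] (M : LM R0 R T I) (M' : LM R0' R' T' I') (π : T' → T)
    (Θ : I' → I → ℤ) : Prop where
  le : ∀ t', M.A (π t') ≤ M'.A t'
  x : ∀ t' i, M.x (π t') i = ∏ i', M'.x t' i' ^ Θ i' i
  lt : ∀ t' (κ : Type u) [Field κ] [Algebra k κ] (φ' : M'.A t' →ₐ[k] κ)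
    (v : LT (φ'.comp (Subalgebra.inclusion (le t'))) (M.x (π t'))),
    ∃ v' : LT φ' (M'.x t'),
      (∀ a (ha : a ∈ M.A (π t')), v'.D.D ⟨a, le t' ha⟩ = v.D.D ⟨a, ha⟩) ∧
      ∀ i, ∑ i', (Θ i' i : κ) * v'.e i' = v.e i

/-- Normal form of the function `f`: on each chart `f = a ^ p + x ^ n * h` such that the
logarithmic form `d f / x ^ n` has no zeros. -/
structure NFH (p : ℕ) [Fintype I] (M : LM R0 R T I) (f : K) (n : I → ℤ) (a h : T → K) :
    Prop where
  hA : ∀ t, h t ∈ M.A t
  eq : ∀ t, f = a t ^ p + (∏ i, M.x t i ^ n i) * h t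
  ln : ∀ t (κ : Type u) [Field κ] [Algebra k κ] (φ : M.A t →ₐ[k] κ),
    ∃ v : LT φ (M.x t), om v n (hA t) ≠ 0

/-- Joint normal form of the functions `f j`: as `NFH`, and the logarithmic forms
`d (f j) / x ^ (n j)` are linearly independent at all points. -/
structure NFJ (p : ℕ) [Fintype I] {ι : Type} (M : LM R0 R T I) (f : ι → K) (n : ι → I → ℤ)
    (a h : T → ι → K) : Prop where
  hA : ∀ t j, h t j ∈ M.A t
  eq : ∀ t j, f j = a t j ^ p + (∏ i, M.x t i ^ n j i) * h t j
  ln : ∀ t (κ : Type u) [Field κ] [Algebra k κ] (φ : M.A t →ₐ[k] κ) (j : ι),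
    ∃ v : LT φ (M.x t), om v (n j) (hA t j) ≠ 0 ∧ ∀ l, l ≠ j → om v (n l) (hA t l) = 0

end nf

section ps

variable {k N : Type u} [Field k] [Field N] [Algebra k N] {T I : Type}

/-- The family `x` together with the additional element `y`. -/
def ox (y : N) (x : I → N) : Option I → N := fun o => o.elim y x

/-- A model together with a function `F` which is the product of a monomial (with exponents
divisible by `p`) and of `y t ^ p - x ^ c * h t` on each chart, such that `x` and `y t` have simple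
normal crossings, and such that the logarithmic form `d (x ^ c * h t) / x ^ c` has no zeros. -/
structure PS (p : ℕ) [Fintype I] (M : LM (⊥ : Subalgebra k N) ⊤ T I) (F : N)
    (Q : Subalgebra k N) (y h : T → N) (c μ : I → ℤ) : Prop where
  yA : ∀ t, y t ∈ M.A t
  y0 : ∀ t, y t ≠ 0
  hA : ∀ t, h t ∈ M.A t
  AQ : ∀ t, M.A t ≤ Q
  xQ : ∀ t i, (M.x t i)⁻¹ ∈ Q
  yQ : ∀ t, (y t)⁻¹ ∈ Q
  eq : ∀ t, F = (∏ i, M.x t i ^ ((p : ℤ) * μ i)) * (y t ^ p - (∏ i, M.x t i ^ c i) * h t)
  snc : ∀ t, SNC (M.A t) (ox (y t) (M.x t))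
  ln : ∀ t (κ : Type u) [Field κ] [Algebra k κ] (φ : M.A t →ₐ[k] κ),
    ∃ v : LT φ (ox (y t) (M.x t)),
      om v (fun o => o.elim 0 c) (hA t) ≠ 0

/-- The component `i` is disjoint from the divisors `y t = 0`. -/
def SepY (M : LM (⊥ : Subalgebra k N) ⊤ T I) (y : T → N) (i : I) : Prop :=
  ∀ t, ∃ α ∈ M.A t, ∃ β ∈ M.A t, α * M.x t i + β * y t = 1

end ps

end Pool.Agent.W558
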